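import Pool.Agent.V8H42.LP.Poly

set_option autoImplicit false

/-!
# Counting the monomials of the minors
-/

namespace Pool.Agent.V8H42.LP

open Pool.Agent.R535.SM MeasureTheory

section

variable {m n k N : ℕ}

/-- Bounded degrees: few monomials. -/
theorem mono_of_deg (D : Fin k → ℕ) {F : Matrix (Fin m) (Fin n) (PP k N)}
    (h : ∀ (r : ℕ) (f : Fin r → Fin m) (g : Fin r → Fin n), (F.submatrix f g).det ≠ 0 →
      ∀ l, (F.submatrix f g).det.degreeOf l ≤ D l) : Mono (∏ l, (D l + 1)) F := by
  classical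
  refine ⟨(Finset.univ : Finset (∀ l : Fin k, Fin (D l + 1))).image
    fun g => Finsupp.equivFunOnFinite.symm fun l => (g l : ℕ), ?_, ?_⟩
  · refine Finset.card_image_le.trans ?_
    rw [Finset.card_univ, Fintype.card_pi]
    simp
  · intro r f g e he
    have h0 : (F.submatrix f g).det ≠ 0 := by
      intro h0
      rw [h0] at he
      simp at he
    have h1 : ∀ l, e l ≤ D l := fun l => (MvPolynomial.monomial_le_degreeOf l he).trans (h r f g h0 l)
    refine Finset.mem_image.2 ⟨fun l => ⟨e l, Nat.lt_succ_of_le (h1 l)⟩, Finset.mem_univ _, ?_⟩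
    ext l
    simp

theorem deg_det_le {r : ℕ} (l : Fin k) (A : Matrix (Fin r) (Fin r) (PP k N)) (d : Fin r → ℕ)
    (hA : ∀ i j, (A i j).degreeOf l ≤ d i) : A.det.degreeOf l ≤ ∑ i, d i := by
  classical
  rw [Matrix.det_apply]
  refine (MvPolynomial.degreeOf_sum_le l _ _).trans (Finset.sup_le fun σ _ => ?_)
  have h1 : (Equiv.Perm.sign σ • ∏ i, A (σ i) i).degreeOf l ≤ (∏ i, A (σ i) i).degreeOf l := by
    rcases Int.units_eq_one_or (Equiv.Perm.sign σ) with h | h
    · rw [h, one_smul]
    · rw [h, Units.neg_smul, one_smul, MvPolynomial.degreeOf_neg]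
  refine h1.trans ((MvPolynomial.degreeOf_prod_le l _ _).trans ?_)
  calc ∑ i, (A (σ i) i).degreeOf l ≤ ∑ i, d (σ i) := Finset.sum_le_sum fun i _ => hA _ _
    _ = ∑ i, d i := Equiv.sum_comp σ d

theorem le_of_det_ne {r : ℕ} {F : Matrix (Fin m) (Fin n) (PP k N)} {f : Fin r → Fin m}
    {g : Fin r → Fin n} (h : (F.submatrix f g).det ≠ 0) : r ≤ min m n := by
  classical
  have hf : Function.Injective f := by
    intro a b hab
    by_contra hne
    apply h
    refine Matrix.det_zero_of_row_eq hne ?_
    funext j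
    simp [hab]
  have hg : Function.Injective g := by
    intro a b hab
    by_contra hne
    apply h
    refine Matrix.det_zero_of_column_eq hne ?_
    intro j
    simp [hab]
  have h1 := Fintype.card_le_of_injective f hf
  have h2 := Fintype.card_le_of_injective g hg
  simp only [Fintype.card_fin] at h1 h2
  exact le_min h1 h2

/-- Affine dependence on the adversarial reals. -/
noncomputable def lin (A : Matrix (Fin m) (Fin n) (MvPolynomial (Fin N) ℤ))
    (B : Fin k → Matrix (Fin m) (Fin n) (MvPolynomial (Fin N) ℤ)) :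
    Matrix (Fin m) (Fin n) (PP k N) :=
  fun i j => MvPolynomial.C (A i j) + ∑ l, MvPolynomial.X l * MvPolynomial.C (B l i j)

theorem lin_size {s : ℕ} {A : Matrix (Fin m) (Fin n) (MvPolynomial (Fin N) ℤ)}
    {B : Fin k → Matrix (Fin m) (Fin n) (MvPolynomial (Fin N) ℤ)} (hA : ∀ i j, Size s (A i j))
    (hB : ∀ l i j, Size s (B l i j)) (i : Fin m) (j : Fin n) : SZ s (lin A B i j) := by
  classical
  intro e
  have h0 : Size s (0 : MvPolynomial (Fin N) ℤ) := ⟨by simp, fun a => by simp⟩
  have h1 : (lin A B i j).coeff e = (if 0 = e then A i j else 0) +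
      ∑ l, if Finsupp.single l 1 = e then B l i j else 0 := by
    unfold lin
    rw [MvPolynomial.coeff_add, MvPolynomial.coeff_C, MvPolynomial.coeff_sum]
    congr 1
    refine Finset.sum_congr rfl fun l _ => ?_
    rw [mul_comm, MvPolynomial.coeff_C_mul, MvPolynomial.coeff_X]
    split_ifs <;> simp
  rw [h1]
  by_cases he : 0 = e
  · rw [if_pos he, Finset.sum_eq_zero, add_zero]
    · exact hA i j
    · intro l _
      rw [if_neg]
      rw [← he]
      intro h
      have := DFunLike.congr_fun h l
      simp at this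
  · rw [if_neg he, zero_add]
    by_cases hl : ∃ l, Finsupp.single l 1 = e
    · obtain ⟨l, hl⟩ := hl
      rw [Finset.sum_eq_single l]
      · rw [if_pos hl]
        exact hB l i j
      · intro l' _ hne
        rw [if_neg]
        rw [← hl]
        intro h
        exact hne (Finsupp.single_left_injective one_ne_zero h)
      · intro h
        exact absurd (Finset.mem_univ l) h
    · rw [Finset.sum_eq_zero]
      · exact h0
      · intro l _
        rw [if_neg fun h => hl ⟨l, h⟩]

theorem vl_lin (θ : Fin k → ℝ) (x : Fin N → ℝ)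
    (A : Matrix (Fin m) (Fin n) (MvPolynomial (Fin N) ℤ))
    (B : Fin k → Matrix (Fin m) (Fin n) (MvPolynomial (Fin N) ℤ)) :
    vm θ x (lin A B) = ev x A + ∑ l, θ l • ev x (B l) := by
  funext i j
  unfold vm lin vl spec
  simp only [RingHom.comp_apply, map_add, map_sum, map_mul, MvPolynomial.map_C,
    MvPolynomial.map_X, MvPolynomial.eval_C, MvPolynomial.eval_X, Matrix.add_apply,
    Matrix.sum_apply, Matrix.smul_apply, smul_eq_mul]
  rfl

theorem degreeOf_lin (l : Fin k) (A : Matrix (Fin m) (Fin n) (MvPolynomial (Fin N) ℤ))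
    (B : Fin k → Matrix (Fin m) (Fin n) (MvPolynomial (Fin N) ℤ)) (i : Fin m) (j : Fin n) :
    (lin A B i j).degreeOf l ≤ 1 := by
  classical
  unfold lin
  refine (MvPolynomial.degreeOf_add_le l _ _).trans (max_le ?_ ?_)
  · rw [MvPolynomial.degreeOf_C]
    omega
  · refine (MvPolynomial.degreeOf_sum_le l _ _).trans (Finset.sup_le fun l' _ => ?_)
    refine (MvPolynomial.degreeOf_mul_le l _ _).trans ?_
    rw [MvPolynomial.degreeOf_C, MvPolynomial.degreeOf_X]
    split_ifs <;> omega

theorem mono_lin (A : Matrix (Fin m) (Fin n) (MvPolynomial (Fin N) ℤ))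
    (B : Fin k → Matrix (Fin m) (Fin n) (MvPolynomial (Fin N) ℤ)) :
    Mono ((min m n + 1) ^ k) (lin A B) := by
  have h := mono_of_deg (F := lin A B) (fun _ : Fin k => min m n) (by
    intro r f g hne l
    refine (deg_det_le l _ (fun _ => 1) fun i j => degreeOf_lin l A B _ _).trans ?_
    simp only [Finset.sum_const, Finset.card_univ, Fintype.card_fin, smul_eq_mul, mul_one]
    exact le_of_det_ne hne)
  rw [Finset.prod_const, Finset.card_univ, Fintype.card_fin] at h
  exact h

/-- A relation between many rows of an integer matrix of small rank. -/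
theorem exists_rel {M : Matrix (Fin m) (Fin n) ℤ} {ρ : ℕ}
    (hρ : (M.map (Int.cast : ℤ → ℚ)).rank ≤ ρ) {r : ℕ} (f : Fin r → Fin m) (S : Finset (Fin r))
    (hS : ρ < S.card) : ∃ z : Fin r → ℤ, (∃ a ∈ S, z a ≠ 0) ∧ (∀ a ∉ S, z a = 0) ∧
      ∀ b, ∑ a, z a * M (f a) b = 0 := by
  classical
  obtain ⟨v, hv⟩ : ∃ v : S → (Fin n → ℚ), v = fun (a : S) b => ((M (f a) b : ℤ) : ℚ) :=
    ⟨_, rfl⟩
  have h1 : ¬ LinearIndependent ℚ v := by
    intro h
    have h2 := finrank_span_eq_card h
    have h3 : Submodule.span ℚ (Set.range v) ≤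
        Submodule.span ℚ (Set.range (M.map (Int.cast : ℤ → ℚ)).row) := by
      refine Submodule.span_mono ?_
      rintro _ ⟨a, rfl⟩
      refine ⟨f a, ?_⟩
      rw [hv]
      rfl
    have h4 := Submodule.finrank_mono h3
    rw [h2, ← Matrix.rank_eq_finrank_span_row, Fintype.card_coe] at h4
    omega
  rw [← LinearIndependent.iff_fractionRing ℤ ℚ, Fintype.not_linearIndependent_iff] at h1
  obtain ⟨g, hg, a0, ha0⟩ := h1
  refine ⟨fun a => if h : a ∈ S then g ⟨a, h⟩ else 0, ⟨a0, a0.2, ?_⟩, ?_, ?_⟩
  · simp only [Subtype.coe_eta, Finset.coe_mem, dite_true]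
    exact ha0
  · intro a ha
    simp [ha]
  · intro b
    have h2 := congrFun hg b
    rw [Finset.sum_apply] at h2
    have h3 : ∑ a : S, (g a : ℚ) * ((M (f a) b : ℤ) : ℚ) = 0 := by
      have h4 : ∀ a : S, (g a • v a) b = (g a : ℚ) * ((M (f a) b : ℤ) : ℚ) := by
        intro a
        rw [hv]
        simp [Pi.smul_apply, zsmul_eq_mul]
      simp_rw [h4] at h2
      exact h2
    have h5 : ∑ a : S, g a * M (f a) b = 0 := by exact_mod_cast h3
    refine Eq.trans ?_ h5
    rw [← Finset.sum_subset (Finset.subset_univ S)]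
    · rw [← Finset.sum_coe_sort S]
      refine Finset.sum_congr rfl fun a _ => ?_
      simp
    · intro a _ ha
      simp only []
      rw [dif_neg ha, zero_mul]

/-- The degree of the minors in one real number with a coefficient matrix of small rank. -/
theorem mono_rank (A : Matrix (Fin m) (Fin n) (MvPolynomial (Fin N) ℤ))
    (M : Fin k → Matrix (Fin m) (Fin n) ℤ) (ρ : Fin k → ℕ)
    (hρ : ∀ l, ((M l).map (Int.cast : ℤ → ℚ)).rank ≤ ρ l) :
    Mono (∏ l, (ρ l + 1)) (lin A fun l => (M l).map MvPolynomial.C) := by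
  classical
  refine mono_of_deg ρ ?_
  intro r f g _ l
  obtain ⟨H, hH⟩ : ∃ H : Matrix (Fin r) (Fin r) (PP k N),
    H = fun a b => MvPolynomial.X l * MvPolynomial.C (MvPolynomial.C (M l (f a) (g b))) :=
    ⟨_, rfl⟩
  obtain ⟨G, hG⟩ : ∃ G : Matrix (Fin r) (Fin r) (PP k N),
    G = fun a b => MvPolynomial.C (A (f a) (g b)) + ∑ l' ∈ Finset.univ.erase l,
      MvPolynomial.X l' * MvPolynomial.C (MvPolynomial.C (M l' (f a) (g b))) := ⟨_, rfl⟩
  have h1 : (lin A fun l => (M l).map MvPolynomial.C).submatrix f g = H + G := by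
    ext1 a b
    rw [Matrix.add_apply, hH, hG, Matrix.submatrix_apply]
    unfold lin
    rw [← Finset.add_sum_erase _ _ (Finset.mem_univ l)]
    simp only [Matrix.map_apply]
    ring
  rw [h1]
  obtain ⟨pw, hpw⟩ : ∃ pw : Finset (Fin r) → Matrix (Fin r) (Fin r) (PP k N),
    pw = fun S => Matrix.of (S.piecewise (fun a b => H a b) fun a b => G a b) := ⟨_, rfl⟩
  have hp1 : ∀ S a b, a ∈ S → pw S a b = H a b := by
    intro S a b ha
    rw [hpw]
    simp only [Matrix.of_apply]
    rw [Finset.piecewise_eq_of_mem _ _ _ ha]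
  have hp2 : ∀ S a b, a ∉ S → pw S a b = G a b := by
    intro S a b ha
    rw [hpw]
    simp only [Matrix.of_apply]
    rw [Finset.piecewise_eq_of_notMem _ _ _ ha]
  have h2 : (H + G).det = ∑ S : Finset (Fin r), (pw S).det := by
    rw [hpw]
    exact MultilinearMap.map_add_univ (Matrix.detRowAlternating (R := PP k N)
      (n := Fin r)).toMultilinearMap (fun a b => H a b) fun a b => G a b
  rw [h2]
  refine (MvPolynomial.degreeOf_sum_le l _ _).trans (Finset.sup_le fun S _ => ?_)
  by_cases hS : S.card ≤ ρ l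
  · refine (deg_det_le l _ (fun a => if a ∈ S then 1 else 0) fun a b => ?_).trans ?_
    · by_cases ha : a ∈ S
      · rw [if_pos ha, hp1 S a b ha, hH]
        refine (MvPolynomial.degreeOf_mul_le l _ _).trans ?_
        rw [MvPolynomial.degreeOf_C, MvPolynomial.degreeOf_X, if_pos rfl]
      · rw [if_neg ha, hp2 S a b ha, hG]
        refine (MvPolynomial.degreeOf_add_le l _ _).trans (max_le ?_ ?_)
        · rw [MvPolynomial.degreeOf_C]
        · refine (MvPolynomial.degreeOf_sum_le l _ _).trans (Finset.sup_le fun l' hl' => ?_)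
          refine (MvPolynomial.degreeOf_mul_le l _ _).trans ?_
          rw [MvPolynomial.degreeOf_C, MvPolynomial.degreeOf_X,
            if_neg (Finset.ne_of_mem_erase hl').symm]
    · rw [Finset.sum_ite_mem, Finset.univ_inter, Finset.sum_const, smul_eq_mul, mul_one]
      exact hS
  · push Not at hS
    have h3 : (pw S).det = 0 := by
      obtain ⟨z, ⟨a0, ha0, hz0⟩, hzS, hz⟩ := exists_rel (hρ l) f S hS
      rw [← Matrix.exists_vecMul_eq_zero_iff]
      refine ⟨fun a => MvPolynomial.C (MvPolynomial.C (z a)), ?_, ?_⟩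
      · intro h
        apply hz0
        have h4 := congrFun h a0
        simp only [Pi.zero_apply] at h4
        rw [map_eq_zero_iff _ (MvPolynomial.C_injective _ _),
          map_eq_zero_iff _ (MvPolynomial.C_injective _ _)] at h4
        exact h4
      · funext b
        simp only [Matrix.vecMul, dotProduct, Pi.zero_apply]
        have h5 : ∀ a, MvPolynomial.C (MvPolynomial.C (z a)) * pw S a b =
            MvPolynomial.X l * MvPolynomial.C (MvPolynomial.C (z a * M l (f a) (g b))) := by
          intro a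
          by_cases ha : a ∈ S
          · rw [hp1 S a b ha, hH, map_mul, map_mul]
            ring
          · rw [hzS a ha]
            simp
        simp_rw [h5]
        rw [← Finset.mul_sum, ← map_sum, ← map_sum, hz (g b)]
        simp
    rw [h3, MvPolynomial.degreeOf_zero]
    omega

end

end Pool.Agent.V8H42.LP
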