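import Pool.Agent.V8H42.LP.Deg
import Pool.Agent.R535.SM.Moments

set_option autoImplicit false

/-!
# The algorithm on matrices with random and adversarial parameters
-/

namespace Pool.Agent.V8H42.LP

open Pool.Agent.R535.SM MeasureTheory Pool.Agent.H558R2 Pool.Agent.H622R3.SM

section

variable {m n k N : ℕ}

/-- A polynomial bound for `rr`. -/
noncomputable def rrP (Y : Polynomial ℕ) : Polynomial ℕ :=
  (Y * (Y + 1) + 1) * ((Y + 1) * (Y * Y)) + ((Y + 1) * (Y + 1) +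
    (Y * Y + (Y + (Y * Y + Y + Y * (Y + 1) * Y)) * Y) * (Y + 1))

theorem rr_le {m N s t Q a : ℕ} {Y : Polynomial ℕ} (h1 : m ≤ Y.eval a) (h2 : N ≤ Y.eval a)
    (h3 : s ≤ Y.eval a) (h4 : t ≤ Y.eval a) (h5 : Q ≤ Y.eval a) :
    rr m N s t Q ≤ (rrP Y).eval a := by
  unfold rr kk rrP
  simp only [Polynomial.eval_add, Polynomial.eval_mul, Polynomial.eval_one]
  gcongr

/-- The precision. -/
noncomputable def YY : Polynomial ℕ :=
  Polynomial.X + (Polynomial.X + ((Polynomial.X + 1) + (Polynomial.X + (Polynomial.X +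
    Polynomial.X) * Polynomial.X + Polynomial.X) * (Polynomial.X + 1) + ((Polynomial.X + 1) +
    (Polynomial.X + Polynomial.X))) + 1)

/-- The number of scales. -/
noncomputable def RP : Polynomial ℕ :=
  Polynomial.X + (Polynomial.X * Polynomial.X + 4 * (2 * rrP YY + Polynomial.X) + 1)

theorem bound (m n N s t Q : ℕ) :
    Q * Q + 4 * (2 * rr m N s (t + ext m n N s Q) Q + Q) + 1 ≤
      RP.eval (m + n + N + s + t + Q) - (m + n) := by
  obtain ⟨a, ha⟩ : ∃ a, a = m + n + N + s + t + Q := ⟨_, rfl⟩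
  rw [← ha]
  have hm : m ≤ a := by omega
  have hn : n ≤ a := by omega
  have hN : N ≤ a := by omega
  have hs : s ≤ a := by omega
  have ht : t ≤ a := by omega
  have hQ : Q ≤ a := by omega
  have h0 : a ≤ YY.eval a := by
    unfold YY
    simp only [Polynomial.eval_add, Polynomial.eval_mul, Polynomial.eval_X, Polynomial.eval_one]
    omega
  have h1 : t + ext m n N s Q ≤ YY.eval a := by
    unfold YY ext
    simp only [Polynomial.eval_add, Polynomial.eval_mul, Polynomial.eval_X, Polynomial.eval_one]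
    gcongr
  have h2 := rr_le (m := m) (N := N) (s := s) (Q := Q) (hm.trans h0) (hN.trans h0) (hs.trans h0)
    h1 (hQ.trans h0)
  have h3 : Q * Q ≤ a * a := Nat.mul_le_mul hQ hQ
  unfold RP
  simp only [Polynomial.eval_add, Polynomial.eval_mul, Polynomial.eval_X, Polynomial.eval_one,
    Polynomial.eval_ofNat]
  omega

/-- The algorithm decides correctly within `k` blocks and steps, and the numbers computed on
rational instances have length at most `p (L + r)`. -/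
def WorksN (α : Alg) (p : Polynomial ℕ) : Prop :=
  ∀ (m n : ℕ), 1 ≤ m → 1 ≤ n → ∀ (B : Matrix (Fin m) (Fin n) ℝ) (b : Fin m → ℝ) (r : ℕ),
    (∃ L : Submodule ℝ (Fin m → ℝ), (Hp L (lk B) ∨ Hp (lk B) L) ∧ Few r L) →
    ∃ ans nums steps, run ∅ (α m n) (p.eval (m + n + r)) [] (start B b) = some (ans, nums, steps) ∧
      (ans = true ↔ ∃ x : Fin n → ℝ, b ≤ B.mulVec x) ∧ steps ≤ p.eval (m + n + r) ∧
      ∀ (A' : Matrix (Fin m) (Fin n) ℚ) (b' : Fin m → ℚ), (∀ i j, ((A' i j : ℚ) : ℝ) = B i j) →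
        (∀ i, ((b' i : ℚ) : ℝ) = b i) →
        ∀ v ∈ nums, ∃ q : ℚ, (q : ℝ) = v ∧ bitLength q ≤ p.eval (inputLength A' b' + r)

theorem exists_worksN : ∃ p : Polynomial ℕ, WorksN Pool.Agent.Y648.CS.W.algW p := by
  obtain ⟨p, hp⟩ := Pool.Agent.Y648.CS.V.main.2.2
  exact ⟨p, fun m n hm hn B b r h => hp m n hm hn B b r h⟩

theorem WorksN.works {α : Alg} {p : Polynomial ℕ} (h : WorksN α p) : Works α p := by
  intro m n hm hn B b r hr
  obtain ⟨ans, nums, steps, h1, h2, h3, -⟩ := h m n hm hn B b r hr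
  exact ⟨ans, nums, steps, h1, h2, h3⟩

/-- Good points are enough. -/
theorem solves_good {α : Alg} {p : Polynomial ℕ} (hp : WorksN α p) (hm : 1 ≤ m) (hn : 1 ≤ n)
    {Q L a : ℕ} (hL : Q * Q + 4 * L + 1 ≤ RP.eval a - (m + n))
    {F : Matrix (Fin m) (Fin n) (PP k N)} {x : Fin N → ℝ} (hx : Good F Q L x) (θ : Fin k → ℝ)
    {B : Matrix (Fin m) (Fin n) ℝ} (hB : Reach (vm θ x F) B) (b : Fin m → ℝ) :
    ∃ ans nums steps, run ∅ (α m n) ((p.comp RP).eval a) [] (start B b) =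
        some (ans, nums, steps) ∧
      (ans = true ↔ ∃ x : Fin n → ℝ, b ≤ B.mulVec x) ∧ steps ≤ (p.comp RP).eval a ∧
      ∀ (A' : Matrix (Fin m) (Fin n) ℚ) (b' : Fin m → ℚ), (∀ i j, ((A' i j : ℚ) : ℝ) = B i j) →
        (∀ i, ((b' i : ℚ) : ℝ) = b i) →
        ∀ v ∈ nums, ∃ q : ℚ, (q : ℝ) = v ∧
          bitLength q ≤ p.eval (inputLength A' b' + RP.eval a) := by
  obtain ⟨S, hS1, hS2, hS3⟩ := hx θ
  obtain ⟨ans, nums, steps, h1, h2, h3, h4⟩ := hp m n hm hn B b _ (reach_few hS2 hS1 hL hS3 hB)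
  have e : m + n + (RP.eval a - (m + n)) = RP.eval a := by omega
  rw [e] at h1 h3
  rw [Polynomial.eval_comp]
  refine ⟨ans, nums, steps, h1, h2, h3, fun A' b' hA hb v hv => ?_⟩
  obtain ⟨q, hq1, hq2⟩ := h4 A' b' hA hb v hv
  exact ⟨q, hq1, hq2.trans (eval_mono p (by omega))⟩

/-- **Random parameters first, then adversarial ones.** -/
theorem smoothedN {α : Alg} {p : Polynomial ℕ} (hp : WorksN α p) (m n N k s t Q : ℕ) (hm : 1 ≤ m)
    (hn : 1 ≤ n) (F : Matrix (Fin m) (Fin n) (PP k N)) (hF : ∀ i j, SZ s (F i j))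
    (hQ : Mono Q F) (μ : Fin N → Measure ℝ) [∀ l, IsProbabilityMeasure (μ l)]
    (hμ : ∀ l, Spread s (μ l)) :
    Measure.pi μ {x | ∃ (θ : Fin k → ℝ) (B : Matrix (Fin m) (Fin n) ℝ) (b : Fin m → ℝ),
      Reach (vm θ x F) B ∧ ¬ Solves α ((p.comp RP).eval (m + n + N + s + t + Q)) B b} ≤
        (2 ^ t)⁻¹ := by
  refine le_trans (measure_mono ?_) (good_prob s t Q μ hμ F hF hQ)
  rintro x ⟨θ, B, b, h1, h2⟩ h3
  apply h2
  obtain ⟨ans, nums, steps, a1, a2, a3, -⟩ :=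
    solves_good hp hm hn (bound m n N s t Q) h3 θ h1 b
  exact ⟨ans, nums, steps, a1, a2, a3⟩

/-- All moments of the worst time over the adversarial parameters and the right-hand sides. -/
theorem momentsN {α : Alg} {p : Polynomial ℕ} (hp : WorksN α p) (c : ℕ) :
    ∃ W : Polynomial ℕ, ∀ (m n N k s Q : ℕ), 1 ≤ m → 1 ≤ n →
      ∀ (F : Matrix (Fin m) (Fin n) (PP k N)), (∀ i j, SZ s (F i j)) → Mono Q F →
      ∀ (μ : Fin N → Measure ℝ), (∀ l, IsProbabilityMeasure (μ l)) → (∀ l, Spread s (μ l)) →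
      ∫⁻ x, ⨆ (θ : Fin k → ℝ) (B : Matrix (Fin m) (Fin n) ℝ) (b : Fin m → ℝ)
        (_ : Reach (vm θ x F) B), time α B b ^ c ∂(Measure.pi μ) ≤
          (W.eval (m + n + N + s + Q) : ℕ) := by
  obtain ⟨W, hW⟩ := tail_moment ((p.comp RP) ^ c)
  refine ⟨W, fun m n N k s Q hm hn F hF hQ μ _ hμ => ?_⟩
  refine hW (Measure.pi μ) _ (fun t => {x | ∃ (θ : Fin k → ℝ) (B : Matrix (Fin m) (Fin n) ℝ)
    (b : Fin m → ℝ), Reach (vm θ x F) B ∧
      ¬ Solves α ((p.comp RP).eval (m + n + N + s + t + Q)) B b}) _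
    (fun t => smoothedN hp m n N k s t Q hm hn F hF hQ μ hμ) ?_
  intro t x hx
  refine iSup_le fun θ => iSup_le fun B => iSup_le fun b => iSup_le fun hB => ?_
  have h1 : Solves α ((p.comp RP).eval (m + n + N + s + t + Q)) B b := by
    by_contra h
    exact hx ⟨θ, B, b, hB, h⟩
  have e : m + n + N + s + t + Q = m + n + N + s + Q + t := by omega
  rw [e] at h1
  rw [Polynomial.eval_pow]
  push_cast
  have h2 : time α B b ≤ ((((p.comp RP).eval (m + n + N + s + Q + t) : ℕ)) : ENNReal) :=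
    iInf₂_le (f := fun (k : ℕ) (_ : Solves α k B b) => (k : ENNReal)) _ h1
  exact pow_le_pow_left' h2 c

/-- Without random parameters the statement is deterministic. -/
theorem good_det (s Q : ℕ) (F : Matrix (Fin m) (Fin n) (PP k 0))
    (hF : ∀ i j, SZ s (F i j)) (hQ : Mono Q F) (x : Fin 0 → ℝ) :
    Good F Q (2 * rr m 0 s (1 + ext m n 0 s Q) Q + Q) x := by
  by_contra h
  have h1 := good_prob s 1 Q (fun _ : Fin 0 => (Measure.dirac (0 : ℝ))) (fun l => Fin.elim0 l)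
    F hF hQ
  have h2 : {x | ¬ Good F Q (2 * rr m 0 s (1 + ext m n 0 s Q) Q + Q) x} = Set.univ := by
    rw [Set.eq_univ_iff_forall]
    intro y
    have : y = x := Subsingleton.elim _ _
    rw [this]
    exact h
  rw [h2, measure_univ, pow_one] at h1
  have h3 : (2 : ENNReal)⁻¹ < 1 := ENNReal.inv_lt_one.2 (by norm_num)
  exact absurd h1 (not_le.2 h3)

/-- Integer matrices with entries at most `2 ^ s`, plus real multiples of integer matrices of small
rank with entries at most `2 ^ s`. -/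
def LowRank (s Q : ℕ) (A : Matrix (Fin m) (Fin n) ℝ) : Prop :=
  ∃ (k : ℕ) (ρ : Fin k → ℕ) (θ : Fin k → ℝ) (M₀ : Matrix (Fin m) (Fin n) ℤ)
    (M : Fin k → Matrix (Fin m) (Fin n) ℤ), ∏ l, (ρ l + 1) ≤ Q ∧ (∀ i j, |M₀ i j| ≤ 2 ^ s) ∧
    (∀ l i j, |M l i j| ≤ 2 ^ s) ∧ (∀ l, ((M l).map (Int.cast : ℤ → ℚ)).rank ≤ ρ l) ∧
    ∀ i j, A i j = M₀ i j + ∑ l, θ l * M l i j

theorem size_C {s : ℕ} {z : ℤ} (hz : |z| ≤ 2 ^ s) :
    Size s (MvPolynomial.C z : MvPolynomial (Fin N) ℤ) := by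
  classical
  refine ⟨by rw [MvPolynomial.totalDegree_C]; omega, fun a => ?_⟩
  rw [MvPolynomial.coeff_C]
  split_ifs
  · exact hz
  · rw [abs_zero]
    positivity

theorem Mono.mono {Q Q' : ℕ} (h : Q ≤ Q') {F : Matrix (Fin m) (Fin n) (PP k N)}
    (hF : Mono Q F) : Mono Q' F := by
  obtain ⟨E, h1, h2⟩ := hF
  exact ⟨E, h1.trans h, h2⟩

theorem lowRank_good {s Q : ℕ} {A : Matrix (Fin m) (Fin n) ℝ} (hA : LowRank s Q A) :
    ∃ (k : ℕ) (θ : Fin k → ℝ) (F : Matrix (Fin m) (Fin n) (PP k 0)) (x : Fin 0 → ℝ),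
      Good F Q (2 * rr m 0 s (1 + ext m n 0 s Q) Q + Q) x ∧ A = vm θ x F := by
  obtain ⟨k, ρ, θ, M₀, M, h1, h2, h3, h4, h5⟩ := hA
  refine ⟨k, θ, lin (M₀.map MvPolynomial.C) fun l => (M l).map MvPolynomial.C, Fin.elim0,
    good_det s Q _ ?_ ((mono_rank _ M ρ h4).mono h1) _, ?_⟩
  · exact lin_size (fun i j => size_C (h2 i j)) fun l i j => size_C (h3 l i j)
  · rw [vl_lin]
    funext i j
    rw [h5 i j]
    simp [ev, Pool.Agent.R535.SM.val, Matrix.sum_apply]

/-- The deterministic class is treated in strongly polynomial time. -/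
theorem det_class {α : Alg} {p : Polynomial ℕ} (hp : WorksN α p) (hm : 1 ≤ m) (hn : 1 ≤ n)
    {s Q : ℕ} {A B : Matrix (Fin m) (Fin n) ℝ} (hA : LowRank s Q A) (hB : Reach A B)
    (b : Fin m → ℝ) :
    ∃ ans nums steps, run ∅ (α m n) ((p.comp RP).eval (m + n + 0 + s + 1 + Q)) [] (start B b) =
        some (ans, nums, steps) ∧
      (ans = true ↔ ∃ x : Fin n → ℝ, b ≤ B.mulVec x) ∧
      steps ≤ (p.comp RP).eval (m + n + 0 + s + 1 + Q) ∧
      ∀ (A' : Matrix (Fin m) (Fin n) ℚ) (b' : Fin m → ℚ), (∀ i j, ((A' i j : ℚ) : ℝ) = B i j) →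
        (∀ i, ((b' i : ℚ) : ℝ) = b i) →
        ∀ v ∈ nums, ∃ q : ℚ, (q : ℝ) = v ∧
          bitLength q ≤ p.eval (inputLength A' b' + RP.eval (m + n + 0 + s + 1 + Q)) := by
  obtain ⟨k, θ, F, x, h1, rfl⟩ := lowRank_good hA
  exact solves_good hp hm hn (bound m n 0 s 1 Q) h1 θ hB b

theorem le_inputLength {A : Matrix (Fin m) (Fin n) ℚ} {b : Fin m → ℚ} (hm : 1 ≤ m) :
    m + n ≤ inputLength A b := by
  have h1 : ∀ i, n ≤ ∑ j, bitLength (A i j) := fun i => by
    calc n = ∑ _j : Fin n, 1 := by simp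
      _ ≤ _ := Finset.sum_le_sum fun j _ => by unfold bitLength; omega
  have h2 : n ≤ ∑ i, ∑ j, bitLength (A i j) :=
    (h1 ⟨0, hm⟩).trans (Finset.single_le_sum (f := fun i => ∑ j, bitLength (A i j))
      (fun i _ => Nat.zero_le _) (Finset.mem_univ _))
  have h3 : m ≤ ∑ i, bitLength (b i) := by
    calc m = ∑ _i : Fin m, 1 := by simp
      _ ≤ _ := Finset.sum_le_sum fun i _ => by unfold bitLength; omega
  unfold inputLength
  omega

/-- Rational instances. -/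
theorem rational {α : Alg} {p : Polynomial ℕ} (hp : WorksN α p) :
    ∃ P P' : Polynomial ℕ, ∀ m n : ℕ, 1 ≤ m → 1 ≤ n →
        ∀ (A : Matrix (Fin m) (Fin n) ℚ) (b : Fin m → ℚ), ∃ ans nums steps,
        run ∅ (α m n) (P.eval (inputLength A b)) []
          (start (fun i j => ((A i j : ℚ) : ℝ)) fun i => ((b i : ℚ) : ℝ)) =
            some (ans, nums, steps) ∧
        (ans = true ↔ ∃ x : Fin n → ℝ, (fun i => ((b i : ℚ) : ℝ)) ≤
          (Matrix.of fun i j => ((A i j : ℚ) : ℝ)).mulVec x) ∧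
        steps ≤ P.eval (inputLength A b) ∧
        ∀ v ∈ nums, ∃ q : ℚ, (q : ℝ) = v ∧ bitLength q ≤ P'.eval (inputLength A b) := by
  obtain ⟨q, hq⟩ := Pool.Agent.Y648.CS.W.t_SPAN
  obtain ⟨q', hq'⟩ := Pool.Agent.Y648.CS.V.t_RAT
  obtain ⟨R, hR⟩ : ∃ R : Polynomial ℕ, R = Polynomial.X +
    q.comp (Polynomial.X + 1 + q') := ⟨_, rfl⟩
  refine ⟨p.comp R, p.comp (Polynomial.X + R), fun m n hm hn A b => ?_⟩
  obtain ⟨L, hL⟩ : ∃ L, L = inputLength A b := ⟨_, rfl⟩
  have hmn : m + n ≤ L := by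
    rw [hL]
    exact le_inputLength hm
  have h0L : inputLength A 0 ≤ L := by
    rw [hL]
    unfold inputLength
    refine Nat.add_le_add_left (Finset.sum_le_sum fun i _ => ?_) _
    unfold bitLength
    simp only [Pi.zero_apply, Rat.num_zero, Rat.den_zero, Int.natAbs_zero, Nat.size_zero]
    have h1 : Nat.size 1 ≤ Nat.size (b i).den := Nat.size_le_size (b i).den_pos
    omega
  have hs := hq m n 1 _ _ (hq' m n A)
  obtain ⟨r, hr⟩ : ∃ r, r = R.eval L - (m + n) := ⟨_, rfl⟩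
  have hRL : R.eval L = L + q.eval (L + 1 + q'.eval L) := by
    rw [hR]
    simp only [Polynomial.eval_add, Polynomial.eval_comp, Polynomial.eval_X,
      Polynomial.eval_one]
  have hle : q.eval (m + n + 1 + q'.eval (inputLength A 0)) ≤ r := by
    have h1 : q.eval (m + n + 1 + q'.eval (inputLength A 0)) ≤
        q.eval (L + 1 + q'.eval L) := by
      refine eval_mono q ?_
      have h3 : q'.eval (inputLength A 0) ≤ q'.eval L := eval_mono q' h0L
      omega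
    omega
  have hfew : Few r (lk (Matrix.of fun i j => ((A i j : ℚ) : ℝ))) := by
    choose S h1 h2 h3 using hs
    refine ⟨S, fun i j => ⟨(h1 i j).trans hle, h2 i j⟩, fun C hC i j hi hj => ?_⟩
    obtain ⟨s, hs, h4, h5⟩ := h3 i j C ⟨hC.2.1, hC.1, fun D hD hs => hC.2.2 D hD hs⟩ hi hj
    refine ⟨s, hs, h4, h5.trans ?_⟩
    exact mul_le_mul_of_nonneg_right (pow_le_pow_right₀ (by norm_num) hle) (h2 i j s hs).le
  obtain ⟨ans, nums, steps, h1, h2, h3, h4⟩ := hp m n hm hn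
    (Matrix.of fun i j => ((A i j : ℚ) : ℝ)) (fun i => ((b i : ℚ) : ℝ)) r
    ⟨_, Or.inl ⟨le_rfl, Nat.le_succ _⟩, hfew⟩
  have e : m + n + r = R.eval L := by omega
  rw [e] at h1 h3
  refine ⟨ans, nums, steps, ?_, h2, ?_, fun v hv => ?_⟩
  · rw [← hL, Polynomial.eval_comp]
    exact h1
  · rw [← hL, Polynomial.eval_comp]
    exact h3
  · obtain ⟨z, hz, hz'⟩ := h4 A b (fun _ _ => rfl) (fun _ => rfl) v hv
    refine ⟨z, hz, hz'.trans ?_⟩
    rw [← hL, Polynomial.eval_comp]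
    refine eval_mono p ?_
    rw [Polynomial.eval_add, Polynomial.eval_X]
    omega

/-- Running for more blocks does not change the result. -/
theorem run_mono (O : Set (List Bool)) (α : List Outcome → List Instr × Test) :
    ∀ (k k' : ℕ), k ≤ k' → ∀ (h : List Outcome) (ρ : Reg → ℝ) (r : Bool × List ℝ × ℕ),
      run O α k h ρ = some r → run O α k' h ρ = some r := by
  intro k
  induction k with
  | zero =>
    intro k' _ h ρ r hr
    simp [run] at hr
  | succ k ih =>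
    intro k' hk h ρ r hr
    obtain ⟨k', rfl⟩ : ∃ k'', k' = k'' + 1 := ⟨k' - 1, by omega⟩
    have hk' : k ≤ k' := by omega
    rw [run] at hr ⊢
    rw [Option.bind_eq_some_iff] at hr ⊢
    obtain ⟨e, he, hr⟩ := hr
    refine ⟨e, he, ?_⟩
    cases hT : (α h).2 with
    | answer a =>
      rw [hT] at hr
      exact hr
    | sign x =>
      rw [hT] at hr
      simp only [Option.map_eq_some_iff] at hr ⊢
      obtain ⟨q, hq, hr⟩ := hr
      exact ⟨q, ih k' hk' _ _ _ hq, hr⟩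
    | ask w =>
      rw [hT] at hr
      simp only [Option.map_eq_some_iff] at hr ⊢
      obtain ⟨q, hq, hr⟩ := hr
      exact ⟨q, ih k' hk' _ _ _ hq, hr⟩

/-- The class of integer matrices plus few real multiples of integer matrices of small rank. -/
theorem decides {α : Alg} {p : Polynomial ℕ} (hp : WorksN α p) (κ : ℕ) :
    ∃ P : Polynomial ℕ, ∀ m n : ℕ, 1 ≤ m → 1 ≤ n →
    ∀ (B : Matrix (Fin m) (Fin n) ℝ) (b : Fin m → ℝ), (∃ A : Matrix (Fin m) (Fin n) ℝ,
        LowRank ((m + n) ^ κ) ((m + n) ^ κ) A ∧ Reach A B) → ∃ ans nums steps,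
      run ∅ (α m n) (P.eval (m + n)) [] (start B b) = some (ans, nums, steps) ∧
      (ans = true ↔ ∃ x : Fin n → ℝ, b ≤ B.mulVec x) ∧ steps ≤ P.eval (m + n) ∧
      ∀ (A' : Matrix (Fin m) (Fin n) ℚ) (b' : Fin m → ℚ), (∀ i j, ((A' i j : ℚ) : ℝ) = B i j) →
        (∀ i, ((b' i : ℚ) : ℝ) = b i) →
        ∀ v ∈ nums, ∃ q : ℚ, (q : ℝ) = v ∧ bitLength q ≤ P.eval (inputLength A' b') := by
  obtain ⟨T, hT⟩ : ∃ T : Polynomial ℕ, T = Polynomial.X + 0 + Polynomial.X ^ κ + 1 +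
    Polynomial.X ^ κ := ⟨_, rfl⟩
  have hTe : ∀ a, T.eval a = a + 0 + a ^ κ + 1 + a ^ κ := by
    intro a
    rw [hT]
    simp
  refine ⟨(p.comp RP).comp T + p.comp (Polynomial.X + RP.comp T), ?_⟩
  rintro m n hm hn B b ⟨A, hA, hB⟩
  obtain ⟨ans, nums, steps, h1, h2, h3, h4⟩ := det_class hp hm hn hA hB b
  have e : m + n + 0 + (m + n) ^ κ + 1 + (m + n) ^ κ = T.eval (m + n) := by rw [hTe]
  rw [e] at h1 h3 h4
  have h5 : (p.comp RP).eval (T.eval (m + n)) ≤
      ((p.comp RP).comp T + p.comp (Polynomial.X + RP.comp T)).eval (m + n) := by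
    rw [Polynomial.eval_add, Polynomial.eval_comp (p := p.comp RP)]
    exact Nat.le_add_right _ _
  refine ⟨ans, nums, steps, run_mono _ _ _ _ h5 _ _ _ h1, h2, h3.trans h5, ?_⟩
  intro A' b' hA' hb' v hv
  obtain ⟨q, hq1, hq2⟩ := h4 A' b' hA' hb' v hv
  refine ⟨q, hq1, hq2.trans ?_⟩
  have h6 : m + n ≤ inputLength A' b' := le_inputLength hm
  rw [Polynomial.eval_add, Polynomial.eval_comp (p := p) (q := Polynomial.X + RP.comp T),
    Polynomial.eval_add, Polynomial.eval_X, Polynomial.eval_comp (p := RP)]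
  refine le_trans (eval_mono p ?_) (Nat.le_add_left _ _)
  exact Nat.add_le_add_left (eval_mono RP (eval_mono T h6)) _

end

end Pool.Agent.V8H42.LP
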