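import Pool.Agent.V8H42.LP.Win

set_option autoImplicit false

/-!
# Polynomials in adversarial reals with coefficients polynomials in random reals
-/

namespace Pool.Agent.V8H42.LP

open Pool.Agent.R535.SM MeasureTheory

section nrm

variable {k : ℕ}

/-- The sum of the absolute values of the coefficients. -/
noncomputable def nrm (p : MvPolynomial (Fin k) ℝ) : ℝ := ∑ e ∈ p.support, |p.coeff e|

theorem nrm_eq {p : MvPolynomial (Fin k) ℝ} {S : Finset (Fin k →₀ ℕ)} (h : p.support ⊆ S) :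
    nrm p = ∑ e ∈ S, |p.coeff e| := by
  unfold nrm
  refine Finset.sum_subset h fun e _ he => ?_
  rw [MvPolynomial.notMem_support_iff.1 he, abs_zero]

theorem nrm_nonneg (p : MvPolynomial (Fin k) ℝ) : 0 ≤ nrm p :=
  Finset.sum_nonneg fun _ _ => abs_nonneg _

theorem coeff_le_nrm (p : MvPolynomial (Fin k) ℝ) (e : Fin k →₀ ℕ) : |p.coeff e| ≤ nrm p := by
  by_cases he : e ∈ p.support
  · exact Finset.single_le_sum (f := fun e => |p.coeff e|) (fun _ _ => abs_nonneg _) he
  · rw [MvPolynomial.notMem_support_iff.1 he, abs_zero]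
    exact nrm_nonneg p

theorem nrm_add (p q : MvPolynomial (Fin k) ℝ) : nrm (p + q) ≤ nrm p + nrm q := by
  classical
  obtain ⟨S, hS⟩ : ∃ S, S = p.support ∪ q.support := ⟨_, rfl⟩
  have h1 : (p + q).support ⊆ S := by rw [hS]; exact MvPolynomial.support_add
  have h2 : p.support ⊆ S := by rw [hS]; exact Finset.subset_union_left
  have h3 : q.support ⊆ S := by rw [hS]; exact Finset.subset_union_right
  rw [nrm_eq h1, nrm_eq h2, nrm_eq h3, ← Finset.sum_add_distrib]
  refine Finset.sum_le_sum fun e _ => ?_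
  rw [MvPolynomial.coeff_add]
  exact abs_add_le _ _

theorem nrm_zero : nrm (0 : MvPolynomial (Fin k) ℝ) = 0 := by
  unfold nrm
  simp

theorem nrm_sum {ι : Type*} (s : Finset ι) (f : ι → MvPolynomial (Fin k) ℝ) :
    nrm (∑ i ∈ s, f i) ≤ ∑ i ∈ s, nrm (f i) := by
  classical
  induction s using Finset.induction_on with
  | empty => simp [nrm_zero]
  | insert a s ha ih =>
    rw [Finset.sum_insert ha, Finset.sum_insert ha]
    exact (nrm_add _ _).trans (add_le_add le_rfl ih)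

theorem nrm_monomial (e : Fin k →₀ ℕ) (c : ℝ) : nrm (MvPolynomial.monomial e c) ≤ |c| := by
  classical
  have h : (MvPolynomial.monomial e c).support ⊆ {e} := MvPolynomial.support_monomial_subset
  rw [nrm_eq h, Finset.sum_singleton, MvPolynomial.coeff_monomial, if_pos rfl]

theorem nrm_mul (p q : MvPolynomial (Fin k) ℝ) : nrm (p * q) ≤ nrm p * nrm q := by
  classical
  have h1 : p * q = ∑ a ∈ p.support, ∑ b ∈ q.support,
      MvPolynomial.monomial (a + b) (p.coeff a * q.coeff b) := by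
    conv_lhs => rw [MvPolynomial.as_sum p, MvPolynomial.as_sum q]
    rw [Finset.sum_mul_sum]
    refine Finset.sum_congr rfl fun a _ => Finset.sum_congr rfl fun b _ => ?_
    rw [MvPolynomial.monomial_mul]
  rw [h1]
  refine (nrm_sum _ _).trans ?_
  have h2 : nrm p * nrm q = ∑ a ∈ p.support, ∑ b ∈ q.support, |p.coeff a| * |q.coeff b| := by
    unfold nrm
    rw [Finset.sum_mul_sum]
  rw [h2]
  refine Finset.sum_le_sum fun a _ => (nrm_sum _ _).trans (Finset.sum_le_sum fun b _ => ?_)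
  rw [← abs_mul]
  exact nrm_monomial _ _

theorem nrm_one : nrm (1 : MvPolynomial (Fin k) ℝ) ≤ 1 := by
  have := nrm_monomial (0 : Fin k →₀ ℕ) 1
  rw [abs_one] at this
  exact this

theorem nrm_prod {ι : Type*} (s : Finset ι) (f : ι → MvPolynomial (Fin k) ℝ) {M : ℝ}
    (hM : 0 ≤ M) (hf : ∀ i ∈ s, nrm (f i) ≤ M) : nrm (∏ i ∈ s, f i) ≤ M ^ s.card := by
  classical
  induction s using Finset.induction_on with
  | empty => simpa using nrm_one
  | insert a s ha ih =>
    rw [Finset.prod_insert ha, Finset.card_insert_of_notMem ha, pow_succ']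
    refine (nrm_mul _ _).trans (mul_le_mul (hf a (Finset.mem_insert_self a s))
      (ih fun i hi => hf i (Finset.mem_insert_of_mem hi)) (nrm_nonneg _) hM)

theorem nrm_neg (p : MvPolynomial (Fin k) ℝ) : nrm (-p) = nrm p := by
  unfold nrm
  rw [MvPolynomial.support_neg]
  refine Finset.sum_congr rfl fun e _ => ?_
  rw [MvPolynomial.coeff_neg, abs_neg]

theorem nrm_det {r : ℕ} (A : Matrix (Fin r) (Fin r) (MvPolynomial (Fin k) ℝ)) {M : ℝ}
    (hM : 0 ≤ M) (hA : ∀ i j, nrm (A i j) ≤ M) : nrm A.det ≤ r.factorial * M ^ r := by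
  rw [Matrix.det_apply]
  refine (nrm_sum _ _).trans ?_
  have h1 : ∀ σ : Equiv.Perm (Fin r), nrm (Equiv.Perm.sign σ • ∏ i, A (σ i) i) ≤ M ^ r := by
    intro σ
    have h2 : nrm (Equiv.Perm.sign σ • ∏ i, A (σ i) i) = nrm (∏ i, A (σ i) i) := by
      rcases Int.units_eq_one_or (Equiv.Perm.sign σ) with h | h
      · rw [h, one_smul]
      · rw [h, Units.neg_smul, one_smul, nrm_neg]
    rw [h2]
    have h3 := nrm_prod Finset.univ (fun i => A (σ i) i) hM fun i _ => hA _ _
    rwa [Finset.card_univ, Fintype.card_fin] at h3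
  refine (Finset.sum_le_sum fun σ _ => h1 σ).trans ?_
  rw [Finset.sum_const, Finset.card_univ, Fintype.card_perm, Fintype.card_fin, nsmul_eq_mul]

end nrm

/-- Polynomials in `k` variables whose coefficients are integer polynomials in `N` variables. -/
abbrev PP (k N : ℕ) : Type := MvPolynomial (Fin k) (MvPolynomial (Fin N) ℤ)

section

variable {m n k N : ℕ}

/-- Specialisation of the coefficients. -/
noncomputable def spec (x : Fin N → ℝ) : PP k N →+* MvPolynomial (Fin k) ℝ :=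
  MvPolynomial.map (MvPolynomial.aeval x : MvPolynomial (Fin N) ℤ →ₐ[ℤ] ℝ).toRingHom

/-- The value. -/
noncomputable def vl (θ : Fin k → ℝ) (x : Fin N → ℝ) : PP k N →+* ℝ :=
  (MvPolynomial.eval θ).comp (spec x)

theorem coeff_spec (x : Fin N → ℝ) (p : PP k N) (e : Fin k →₀ ℕ) :
    (spec x p).coeff e = val x (p.coeff e) := by
  unfold spec
  rw [MvPolynomial.coeff_map]
  rfl

theorem support_spec (x : Fin N → ℝ) (p : PP k N) : (spec x p).support ⊆ p.support := by
  intro e he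
  rw [MvPolynomial.mem_support_iff] at he ⊢
  intro h
  apply he
  rw [coeff_spec, h]
  unfold val
  rw [map_zero]

theorem vl_eq (θ : Fin k → ℝ) (x : Fin N → ℝ) (p : PP k N) {E : Finset (Fin k →₀ ℕ)}
    (hE : p.support ⊆ E) : vl θ x p = ∑ e ∈ E, val x (p.coeff e) * ∏ l, θ l ^ e l := by
  unfold vl
  rw [RingHom.comp_apply, MvPolynomial.eval_eq']
  have h1 : (spec x p).support ⊆ E := (support_spec x p).trans hE
  rw [Finset.sum_subset h1]
  · refine Finset.sum_congr rfl fun e _ => ?_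
    rw [coeff_spec]
  · intro e _ he
    rw [MvPolynomial.notMem_support_iff.1 he, zero_mul]

/-- The matrix of the values. -/
noncomputable def vm (θ : Fin k → ℝ) (x : Fin N → ℝ) (F : Matrix (Fin m) (Fin n) (PP k N)) :
    Matrix (Fin m) (Fin n) ℝ := fun i j => vl θ x (F i j)

theorem vm_det (θ : Fin k → ℝ) (x : Fin N → ℝ) (F : Matrix (Fin m) (Fin n) (PP k N)) {r : ℕ}
    (f : Fin r → Fin m) (h : Fin r → Fin n) :
    ((vm θ x F).submatrix f h).det = vl θ x (F.submatrix f h).det := by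
  rw [RingHom.map_det]
  rfl

/-- All coefficients have degree at most `d`. -/
def DL (d : ℕ) (p : PP k N) : Prop := ∀ e, (p.coeff e).totalDegree ≤ d

theorem DL.mul {d d' : ℕ} {p q : PP k N} (hp : DL d p) (hq : DL d' q) :
    DL (d + d') (p * q) := by
  classical
  intro e
  rw [MvPolynomial.coeff_mul]
  refine MvPolynomial.totalDegree_finsetSum_le fun a _ => ?_
  exact (MvPolynomial.totalDegree_mul _ _).trans (add_le_add (hp _) (hq _))

theorem DL.sum {d : ℕ} {ι : Type*} (s : Finset ι) {f : ι → PP k N} (hf : ∀ i ∈ s, DL d (f i)) :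
    DL d (∑ i ∈ s, f i) := by
  intro e
  rw [MvPolynomial.coeff_sum]
  exact MvPolynomial.totalDegree_finsetSum_le fun i hi => hf i hi e

theorem DL.prod {d : ℕ} {ι : Type*} (s : Finset ι) {f : ι → PP k N} (hf : ∀ i ∈ s, DL d (f i)) :
    DL (s.card * d) (∏ i ∈ s, f i) := by
  classical
  induction s using Finset.induction_on with
  | empty =>
    intro e
    rw [Finset.prod_empty, MvPolynomial.coeff_one]
    split_ifs <;> simp
  | insert a s ha ih =>
    rw [Finset.prod_insert ha, Finset.card_insert_of_notMem ha]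
    have h1 := (hf a (Finset.mem_insert_self a s)).mul
      (ih fun i hi => hf i (Finset.mem_insert_of_mem hi))
    have e : (s.card + 1) * d = d + s.card * d := by ring
    rw [e]
    exact h1

theorem DL.neg {d : ℕ} {p : PP k N} (hp : DL d p) : DL d (-p) := by
  intro e
  rw [MvPolynomial.coeff_neg, MvPolynomial.totalDegree_neg]
  exact hp e

theorem DL.det {d r : ℕ} {A : Matrix (Fin r) (Fin r) (PP k N)} (hA : ∀ i j, DL d (A i j)) :
    DL (r * d) A.det := by
  rw [Matrix.det_apply]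
  refine DL.sum _ fun σ _ => ?_
  have h1 : DL (r * d) (∏ i, A (σ i) i) := by
    have := DL.prod Finset.univ (f := fun i => A (σ i) i) (d := d) fun i _ => hA _ _
    rwa [Finset.card_univ, Fintype.card_fin] at this
  rcases Int.units_eq_one_or (Equiv.Perm.sign σ) with h | h
  · rw [h, one_smul]
    exact h1
  · rw [h, Units.neg_smul, one_smul]
    exact h1.neg

/-- All coefficients have degree at most `s` and coefficients at most `2 ^ s`. -/
def SZ (s : ℕ) (p : PP k N) : Prop := ∀ e, Size s (p.coeff e)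

theorem SZ.dl {s : ℕ} {p : PP k N} (h : SZ s p) : DL s p := fun e => (h e).1

/-- The minors of `F` involve at most `Q` monomials. -/
def Mono (Q : ℕ) (F : Matrix (Fin m) (Fin n) (PP k N)) : Prop :=
  ∃ E : Finset (Fin k →₀ ℕ), E.card ≤ Q ∧ ∀ (r : ℕ) (f : Fin r → Fin m) (h : Fin r → Fin n),
    (F.submatrix f h).det.support ⊆ E

/-- Names of minors. -/
abbrev Ix (m n : ℕ) : Type := Σ r : Fin (m + 1), (Fin r → Fin m) × (Fin r → Fin n)

theorem card_Ix (m n : ℕ) : Fintype.card (Ix m n) ≤ 2 ^ (m + (m + n) * m) := by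
  rw [Fintype.card_sigma]
  have h1 : ∀ r : Fin (m + 1), Fintype.card ((Fin r → Fin m) × (Fin r → Fin n)) ≤
      2 ^ ((m + n) * m) := by
    intro r
    have hr : (r : ℕ) ≤ m := by omega
    rw [Fintype.card_prod, Fintype.card_fun, Fintype.card_fun, Fintype.card_fin,
      Fintype.card_fin, Fintype.card_fin]
    calc m ^ (r : ℕ) * n ^ (r : ℕ) ≤ (2 ^ m) ^ (r : ℕ) * (2 ^ n) ^ (r : ℕ) :=
          Nat.mul_le_mul (Nat.pow_le_pow_left Nat.lt_two_pow_self.le _)
            (Nat.pow_le_pow_left Nat.lt_two_pow_self.le _)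
      _ = 2 ^ ((m + n) * r) := by rw [← mul_pow, ← pow_add, ← pow_mul]
      _ ≤ 2 ^ ((m + n) * m) := Nat.pow_le_pow_right (by omega) (Nat.mul_le_mul le_rfl hr)
  calc ∑ r : Fin (m + 1), Fintype.card ((Fin r → Fin m) × (Fin r → Fin n))
      ≤ ∑ _r : Fin (m + 1), 2 ^ ((m + n) * m) := Finset.sum_le_sum fun r _ => h1 r
    _ = (m + 1) * 2 ^ ((m + n) * m) := by simp
    _ ≤ 2 ^ m * 2 ^ ((m + n) * m) := Nat.mul_le_mul Nat.lt_two_pow_self le_rfl
    _ = 2 ^ (m + (m + n) * m) := by rw [pow_add]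

/-- The polynomial of a minor. -/
noncomputable def mn (F : Matrix (Fin m) (Fin n) (PP k N)) (i : Ix m n) : PP k N :=
  (F.submatrix i.2.1 i.2.2).det

/-- The vectors of the coefficients of the minors. -/
noncomputable def vec (F : Matrix (Fin m) (Fin n) (PP k N)) {q : ℕ} (c : Fin q → (Fin k →₀ ℕ))
    (x : Fin N → ℝ) : Ix m n → Fin q → ℝ := fun i j => val x ((mn F i).coeff (c j))

/-- The matrices of coefficients. -/
noncomputable def cm (F : Matrix (Fin m) (Fin n) (PP k N)) {q : ℕ} (c : Fin q → (Fin k →₀ ℕ))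
    {u : ℕ} (a : Fin u → Ix m n) (e : Fin u → Fin q) : MvPolynomial (Fin N) ℤ :=
  (Matrix.of fun i j => (mn F (a i)).coeff (c (e j))).det

theorem vec_det (F : Matrix (Fin m) (Fin n) (PP k N)) {q : ℕ} (c : Fin q → (Fin k →₀ ℕ))
    (x : Fin N → ℝ) {u : ℕ} (a : Fin u → Ix m n) (e : Fin u → Fin q) :
    (Matrix.of fun i j => vec F c x (a i) (e j)).det = val x (cm F c a e) := by
  unfold cm val
  rw [AlgHom.map_det]
  rfl

theorem deg_cm {s : ℕ} {F : Matrix (Fin m) (Fin n) (PP k N)} (hF : ∀ i j, SZ s (F i j)) {q : ℕ}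
    (c : Fin q → (Fin k →₀ ℕ)) {u Q : ℕ} (hu : u ≤ Q + 1) (a : Fin u → Ix m n)
    (e : Fin u → Fin q) : (cm F c a e).totalDegree ≤ (Q + 1) * (m * s) := by
  unfold cm
  rw [Matrix.det_apply]
  refine MvPolynomial.totalDegree_finsetSum_le fun σ _ => ?_
  obtain ⟨A, hA⟩ : ∃ A : Matrix (Fin u) (Fin u) (MvPolynomial (Fin N) ℤ),
    A = Matrix.of fun i j => (mn F (a i)).coeff (c (e j)) := ⟨_, rfl⟩
  rw [← hA]
  have h1 : (Equiv.Perm.sign σ • ∏ i, A (σ i) i).totalDegree ≤
      (∏ i, A (σ i) i).totalDegree := by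
    rcases Int.units_eq_one_or (Equiv.Perm.sign σ) with h | h
    · rw [h, one_smul]
    · rw [h, Units.neg_smul, one_smul, MvPolynomial.totalDegree_neg]
  refine h1.trans ((MvPolynomial.totalDegree_finsetProd _ _).trans ?_)
  have h2 : ∀ i j, (A i j).totalDegree ≤ m * s := by
    intro i j
    rw [hA, Matrix.of_apply]
    have h3 : DL ((a i).1 * s) (mn F (a i)) := DL.det fun _ _ => (hF _ _).dl
    refine (h3 _).trans (Nat.mul_le_mul ?_ le_rfl)
    have := (a i).1.2
    omega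
  calc ∑ i, (A (σ i) i).totalDegree ≤ ∑ _i : Fin u, m * s := Finset.sum_le_sum fun i _ => h2 _ _
    _ = u * (m * s) := by simp
    _ ≤ (Q + 1) * (m * s) := Nat.mul_le_mul hu le_rfl

/-- The bound for the coefficients of the minors. -/
def kk (m N s t Q : ℕ) : ℕ := m * m + (Q + (s * N + s + s * (t + 1) * s)) * m

/-- The bound for the determinants of coefficients. -/
def rr (m N s t Q : ℕ) : ℕ :=
  (s * (t + 1) + 1) * ((Q + 1) * (m * s)) + ((Q + 1) * (Q + 1) + kk m N s t Q * (Q + 1))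

theorem vec_le {s t Q : ℕ} {F : Matrix (Fin m) (Fin n) (PP k N)} (hF : ∀ i j, SZ s (F i j))
    (hQ : ∀ i j, (F i j).support.card ≤ Q)
    {x : Fin N → ℝ} (hx : ∀ l, |x l| ≤ 2 ^ (s * (t + 1))) {q : ℕ} (c : Fin q → (Fin k →₀ ℕ))
    (i : Ix m n) (j : Fin q) : |vec F c x i j| ≤ 2 ^ kk m N s t Q := by
  unfold vec
  rw [← coeff_spec]
  refine (coeff_le_nrm _ _).trans ?_
  have h1 : spec x (mn F i) = (Matrix.of fun a b => spec x (F (i.2.1 a) (i.2.2 b))).det := by
    unfold mn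
    rw [RingHom.map_det]
    rfl
  rw [h1]
  have h2 : ∀ a b, nrm (spec x (F a b)) ≤ 2 ^ (Q + (s * N + s + s * (t + 1) * s)) := by
    intro a b
    rw [nrm_eq (support_spec x (F a b))]
    calc ∑ e ∈ (F a b).support, |(spec x (F a b)).coeff e|
        ≤ ∑ _e ∈ (F a b).support, (2 : ℝ) ^ (s * N + s + s * (t + 1) * s) := by
          refine Finset.sum_le_sum fun e _ => ?_
          rw [coeff_spec]
          refine (val_le (hF a b e) (one_le_pow₀ (by norm_num)) hx).trans (le_of_eq ?_)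
          rw [← pow_mul, ← pow_add]
      _ = (F a b).support.card * (2 : ℝ) ^ (s * N + s + s * (t + 1) * s) := by
          rw [Finset.sum_const, nsmul_eq_mul]
      _ ≤ 2 ^ Q * (2 : ℝ) ^ (s * N + s + s * (t + 1) * s) := by
          have h3 : ((F a b).support.card : ℝ) ≤ 2 ^ Q := by
            exact_mod_cast (hQ a b).trans Nat.lt_two_pow_self.le
          gcongr
      _ = 2 ^ (Q + (s * N + s + s * (t + 1) * s)) := by rw [← pow_add]
  refine (nrm_det _ (by positivity) fun a b => h2 _ _).trans ?_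
  have hr : (i.1 : ℕ) ≤ m := by
    have := i.1.2
    omega
  unfold kk
  rw [pow_add 2 (m * m), ← pow_mul]
  have h4 : ((i.1 : ℕ).factorial : ℝ) ≤ 2 ^ (m * m) := by
    have h5 : (i.1 : ℕ).factorial ≤ 2 ^ (m * m) := by
      calc (i.1 : ℕ).factorial ≤ (i.1 : ℕ) ^ (i.1 : ℕ) := Nat.factorial_le_pow _
        _ ≤ (2 ^ (i.1 : ℕ)) ^ (i.1 : ℕ) := Nat.pow_le_pow_left Nat.lt_two_pow_self.le _
        _ = 2 ^ ((i.1 : ℕ) * (i.1 : ℕ)) := by rw [pow_mul]
        _ ≤ 2 ^ (m * m) := Nat.pow_le_pow_right (by omega) (Nat.mul_le_mul hr hr)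
    exact_mod_cast h5
  have h6 : (2 : ℝ) ^ ((Q + (s * N + s + s * (t + 1) * s)) * (i.1 : ℕ)) ≤
      2 ^ ((Q + (s * N + s + s * (t + 1) * s)) * m) :=
    pow_le_pow_right₀ (by norm_num) (Nat.mul_le_mul le_rfl hr)
  exact mul_le_mul h4 h6 (by positivity) (by positivity)

theorem bdd_vec {s t Q : ℕ} {F : Matrix (Fin m) (Fin n) (PP k N)} (hF : ∀ i j, SZ s (F i j))
    (hQ : ∀ i j, (F i j).support.card ≤ Q) {q : ℕ} (hq : q ≤ Q)
    {x : Fin N → ℝ} (hx : ∀ l, |x l| ≤ 2 ^ (s * (t + 1))) (c : Fin q → (Fin k →₀ ℕ))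
    (h2 : ∀ (u : ℕ), u ≤ q + 1 → ∀ (a : Fin u → Ix m n) (e : Fin u → Fin q), cm F c a e ≠ 0 →
      ((2 ^ (s * (t + 1) + 1) : ℝ)⁻¹) ^ ((Q + 1) * (m * s)) ≤ |val x (cm F c a e)|) :
    Bdd (rr m N s t Q) (vec F c x) := by
  intro u hu a e hne
  have h3 := vec_det F c x a e
  have hq0 : cm F c a e ≠ 0 := by
    intro h
    apply hne
    rw [h3, h]
    unfold val
    rw [map_zero]
  constructor
  · rw [h3]
    refine le_trans ?_ (h2 u hu a e hq0)
    rw [inv_pow, ← pow_mul]
    refine inv_anti₀ (by positivity) (pow_le_pow_right₀ (by norm_num) ?_)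
    unfold rr
    omega
  · have h4 := Matrix.det_le (A := Matrix.of fun i j => vec F c x (a i) (e j))
      (abv := AbsoluteValue.abs) (x := 2 ^ kk m N s t Q)
      (fun i j => vec_le hF hQ hx c (a i) (e j))
    rw [Fintype.card_fin] at h4
    have h5 : |(Matrix.of fun i j => vec F c x (a i) (e j)).det| ≤
        u.factorial • (2 ^ kk m N s t Q) ^ u := h4
    refine h5.trans ?_
    rw [nsmul_eq_mul]
    have hu' : u ≤ Q + 1 := by omega
    have h6 : (u.factorial : ℝ) ≤ 2 ^ ((Q + 1) * (Q + 1)) := by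
      have h7 : u.factorial ≤ 2 ^ ((Q + 1) * (Q + 1)) := by
        calc u.factorial ≤ u ^ u := Nat.factorial_le_pow _
          _ ≤ (2 ^ u) ^ u := Nat.pow_le_pow_left Nat.lt_two_pow_self.le _
          _ = 2 ^ (u * u) := by rw [pow_mul]
          _ ≤ 2 ^ ((Q + 1) * (Q + 1)) :=
              Nat.pow_le_pow_right (by omega) (Nat.mul_le_mul hu' hu')
      exact_mod_cast h7
    have h8 : ((2 : ℝ) ^ kk m N s t Q) ^ u ≤ 2 ^ (kk m N s t Q * (Q + 1)) := by
      rw [← pow_mul]
      exact pow_le_pow_right₀ (by norm_num) (Nat.mul_le_mul le_rfl hu')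
    refine (mul_le_mul h6 h8 (by positivity) (by positivity)).trans ?_
    rw [← pow_add]
    refine pow_le_pow_right₀ (by norm_num) ?_
    unfold rr
    omega

/-- Good points: all minors lie in few windows, for all values of the adversarial reals. -/
def Good (F : Matrix (Fin m) (Fin n) (PP k N)) (Q L : ℕ) (x : Fin N → ℝ) : Prop :=
  ∀ θ : Fin k → ℝ, ∃ S : Finset ℝ, S.card ≤ Q ∧ (∀ σ ∈ S, 0 < σ) ∧ InWin S L (vm θ x F)

theorem InWin.mono {S : Finset ℝ} (hS : ∀ σ ∈ S, 0 < σ) {L L' : ℕ} (h : L ≤ L')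
    {A : Matrix (Fin m) (Fin n) ℝ} (hA : InWin S L A) : InWin S L' A := by
  intro r hr f g hne
  obtain ⟨σ, hσ, h1, h2⟩ := hA r hr f g hne
  have h3 : (2 : ℝ) ^ L ≤ 2 ^ L' := pow_le_pow_right₀ (by norm_num) h
  refine ⟨σ, hσ, h1.trans (mul_le_mul_of_nonneg_left h3 (abs_nonneg _)),
    h2.trans (mul_le_mul_of_nonneg_right h3 (hS σ hσ).le)⟩

theorem good_of {Q R q : ℕ} {F : Matrix (Fin m) (Fin n) (PP k N)} {E : Finset (Fin k →₀ ℕ)}
    (hE : ∀ (r : ℕ) (f : Fin r → Fin m) (h : Fin r → Fin n), (F.submatrix f h).det.support ⊆ E)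
    (e : Fin q ≃ E) (hq : q ≤ Q) {x : Fin N → ℝ}
    (hx : Bdd R (vec F (fun j => ((e j : E) : Fin k →₀ ℕ)) x)) : Good F Q (2 * R + Q) x := by
  intro θ
  obtain ⟨S, hS1, hS2, hS3⟩ := windows hx fun j => ∏ l, θ l ^ ((e j : E) : Fin k →₀ ℕ) l
  refine ⟨S, hS1.trans hq, hS2, InWin.mono hS2 (L := 2 * R + q) (by omega) ?_⟩
  intro r hr f h hne
  have h1 : ((vm θ x F).submatrix f h).det = ∑ j, vec F (fun j => ((e j : E) : Fin k →₀ ℕ)) x
      ⟨⟨r, Nat.lt_succ_of_le hr⟩, f, h⟩ j * ∏ l, θ l ^ ((e j : E) : Fin k →₀ ℕ) l := by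
    rw [vm_det, vl_eq θ x _ (hE r f h), ← Finset.sum_coe_sort E, ← e.sum_comp]
    rfl
  rw [h1] at hne ⊢
  exact hS3 _ hne

/-- The number of extra bits of safety. -/
def ext (m n N s Q : ℕ) : ℕ :=
  N + ((Q + 1) + (m + (m + n) * m + Q) * (Q + 1) + ((Q + 1) + (m + s))) + 1

/-- **With high probability all minors lie in few windows, for all adversarial reals.** -/
theorem good_prob (s t Q : ℕ) (μ : Fin N → Measure ℝ) [∀ l, IsProbabilityMeasure (μ l)]
    (hμ : ∀ l, Spread s (μ l)) (F : Matrix (Fin m) (Fin n) (PP k N))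
    (hF : ∀ i j, SZ s (F i j)) (hQ : Mono Q F) :
    Measure.pi μ {x | ¬ Good F Q (2 * rr m N s (t + ext m n N s Q) Q + Q) x} ≤ (2 ^ t)⁻¹ := by
  classical
  obtain ⟨E, hEQ, hE⟩ := hQ
  have hsup : ∀ i j, (F i j).support.card ≤ Q := by
    intro i j
    refine le_trans (Finset.card_le_card ?_) hEQ
    have h1 := hE 1 (fun _ => i) (fun _ => j)
    have h2 : (F.submatrix (fun _ : Fin 1 => i) fun _ => j).det = F i j := by
      rw [Matrix.det_unique]
      rfl
    rwa [h2] at h1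
  obtain ⟨q, hq⟩ : ∃ q, q = E.card := ⟨_, rfl⟩
  obtain ⟨e⟩ : Nonempty (Fin q ≃ E) := by rw [hq]; exact ⟨E.equivFin.symm⟩
  rw [← hq] at hEQ
  obtain ⟨c, hc⟩ : ∃ c : Fin q → (Fin k →₀ ℕ), c = fun j => ((e j : E) : Fin k →₀ ℕ) := ⟨_, rfl⟩
  obtain ⟨t', ht'⟩ : ∃ t', t' = t + ext m n N s Q := ⟨_, rfl⟩
  rw [← ht']
  obtain ⟨w, hw⟩ : ∃ w : ENNReal, w = (2 ^ t')⁻¹ := ⟨_, rfl⟩
  obtain ⟨D, hD⟩ : ∃ D, D = (Q + 1) * (m * s) := ⟨_, rfl⟩
  obtain ⟨U, hU⟩ : ∃ U : Fin N → Set (Fin N → ℝ),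
    U = fun l => {x | (2 : ℝ) ^ (s * (t' + 1)) < |x l|} := ⟨_, rfl⟩
  obtain ⟨V, hV⟩ : ∃ V : (u : ℕ) → (Fin u → Ix m n) → (Fin u → Fin q) → Set (Fin N → ℝ),
    V = fun u a b => {x | cm F c a b ≠ 0 ∧
      |val x (cm F c a b)| < ((2 ^ (s * (t' + 1) + 1) : ℝ)⁻¹) ^ D} := ⟨_, rfl⟩
  have hsub : {x | ¬ Good F Q (2 * rr m N s t' Q + Q) x} ⊆
      (⋃ l, U l) ∪ ⋃ u ∈ Finset.range (Q + 2), ⋃ a, ⋃ b, V u a b := by
    intro x hx
    by_contra hne
    rw [Set.mem_union, not_or] at hne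
    obtain ⟨n1, n2⟩ := hne
    apply hx
    refine good_of hE e hEQ ?_
    rw [← hc]
    refine bdd_vec hF hsup hEQ (fun l => ?_) c (fun u hu a b hab => ?_)
    · by_contra h
      rw [not_le] at h
      exact n1 (Set.mem_iUnion.2 ⟨l, by rw [hU]; exact h⟩)
    · by_contra h
      rw [not_le] at h
      apply n2
      simp only [Set.mem_iUnion]
      refine ⟨u, Finset.mem_range.2 (by omega), a, b, ?_⟩
      rw [hV]
      exact ⟨hab, by rw [hD]; exact h⟩
  have hUm : ∀ l, Measure.pi μ (U l) ≤ w := by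
    intro l
    have h1 := (measurePreserving_eval μ l).measure_preimage
      (s := {y : ℝ | (2 : ℝ) ^ (s * (t' + 1)) < |y|})
      (isOpen_lt continuous_const continuous_abs).measurableSet.nullMeasurableSet
    have h2 : U l = Function.eval l ⁻¹' {y : ℝ | (2 : ℝ) ^ (s * (t' + 1)) < |y|} := by
      rw [hU]
      rfl
    rw [h2, h1, hw]
    exact (hμ l t').2
  have hVm : ∀ u, u ≤ Q + 1 → ∀ a b, Measure.pi μ (V u a b) ≤ (D : ℕ) * w := by
    intro u hu a b
    by_cases hab : cm F c a b = 0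
    · have : V u a b = ∅ := by
        rw [hV, Set.eq_empty_iff_forall_notMem]
        rintro x ⟨h, -⟩
        exact h hab
      rw [this, measure_empty]
      exact zero_le
    · have h1 := small_val s t' N μ hμ _ D hab (by rw [hD]; exact deg_cm hF c hu a b)
      rw [← hw] at h1
      refine le_trans (measure_mono ?_) h1
      intro x hx
      rw [hV] at hx
      exact hx.2
  obtain ⟨G, hG⟩ : ∃ G, G = (m + (m + n) * m + Q) * (Q + 1) := ⟨_, rfl⟩
  have hcount : ∀ u, u ≤ Q + 1 →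
      Fintype.card (Fin u → Ix m n) * Fintype.card (Fin u → Fin q) ≤ 2 ^ G := by
    intro u hu
    rw [Fintype.card_fun, Fintype.card_fun, Fintype.card_fin, Fintype.card_fin, ← mul_pow]
    calc (Fintype.card (Ix m n) * q) ^ u ≤ (2 ^ (m + (m + n) * m) * 2 ^ Q) ^ u :=
          Nat.pow_le_pow_left (Nat.mul_le_mul (card_Ix m n)
            (hEQ.trans Nat.lt_two_pow_self.le)) _
      _ = 2 ^ ((m + (m + n) * m + Q) * u) := by rw [← pow_add, ← pow_mul]
      _ ≤ 2 ^ G := by
          rw [hG]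
          exact Nat.pow_le_pow_right (by omega) (Nat.mul_le_mul le_rfl hu)
  have hsum : Measure.pi μ (⋃ u ∈ Finset.range (Q + 2), ⋃ a, ⋃ b, V u a b) ≤
      ((Q + 2) * 2 ^ G * D : ℕ) * w := by
    calc Measure.pi μ (⋃ u ∈ Finset.range (Q + 2), ⋃ a, ⋃ b, V u a b)
        ≤ ∑ u ∈ Finset.range (Q + 2), Measure.pi μ (⋃ a, ⋃ b, V u a b) :=
          measure_biUnion_finset_le _ _
      _ ≤ ∑ u ∈ Finset.range (Q + 2), ((2 ^ G * D : ℕ) : ENNReal) * w := by
          refine Finset.sum_le_sum fun u hu => ?_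
          have hu' : u ≤ Q + 1 := by
            have := Finset.mem_range.1 hu
            omega
          calc Measure.pi μ (⋃ a, ⋃ b, V u a b) ≤ ∑ a, Measure.pi μ (⋃ b, V u a b) :=
                measure_iUnion_fintype_le _ _
            _ ≤ ∑ _a : Fin u → Ix m n, ∑ _b : Fin u → Fin q, ((D : ℕ) : ENNReal) * w :=
                Finset.sum_le_sum fun a _ => (measure_iUnion_fintype_le _ _).trans
                  (Finset.sum_le_sum fun b _ => hVm u hu' a b)
            _ = ((Fintype.card (Fin u → Ix m n) * Fintype.card (Fin u → Fin q) * D : ℕ) :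
                  ENNReal) * w := by
                simp only [Finset.sum_const, Finset.card_univ, nsmul_eq_mul]
                push_cast
                ring
            _ ≤ ((2 ^ G * D : ℕ) : ENNReal) * w := by
                gcongr
                exact hcount u hu'
      _ = ((Q + 2) * 2 ^ G * D : ℕ) * w := by
          rw [Finset.sum_const, Finset.card_range, nsmul_eq_mul]
          push_cast
          ring
  have hnum : N + (Q + 2) * 2 ^ G * D ≤ 2 ^ ext m n N s Q := by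
    have a1 : (Q + 2) * 2 ^ G * D ≤ 2 ^ ((Q + 1) + G + ((Q + 1) + (m + s))) := by
      calc (Q + 2) * 2 ^ G * D ≤ 2 ^ (Q + 1) * 2 ^ G * (2 ^ (Q + 1) * (2 ^ m * 2 ^ s)) := by
            rw [hD]
            refine Nat.mul_le_mul (Nat.mul_le_mul ?_ le_rfl) (Nat.mul_le_mul ?_
              (Nat.mul_le_mul Nat.lt_two_pow_self.le Nat.lt_two_pow_self.le))
            · have : Q + 1 < 2 ^ (Q + 1) := Nat.lt_two_pow_self
              omega
            · exact Nat.lt_two_pow_self.le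
        _ = 2 ^ ((Q + 1) + G + ((Q + 1) + (m + s))) := by
            simp only [← pow_add]
    obtain ⟨a, ha⟩ : ∃ a, a = (Q + 1) + G + ((Q + 1) + (m + s)) := ⟨_, rfl⟩
    have hext : ext m n N s Q = N + a + 1 := by
      unfold ext
      rw [ha, hG]
    rw [hext]
    rw [← ha] at a1
    have a2 : N ≤ 2 ^ N := Nat.lt_two_pow_self.le
    have a3 : 2 ^ N ≤ 2 ^ (N + a) := Nat.pow_le_pow_right (by omega) (by omega)
    have a4 : 2 ^ a ≤ 2 ^ (N + a) := Nat.pow_le_pow_right (by omega) (by omega)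
    rw [pow_succ]
    omega
  calc Measure.pi μ {x | ¬ Good F Q (2 * rr m N s t' Q + Q) x}
      ≤ Measure.pi μ ((⋃ l, U l) ∪ ⋃ u ∈ Finset.range (Q + 2), ⋃ a, ⋃ b, V u a b) :=
        measure_mono hsub
    _ ≤ Measure.pi μ (⋃ l, U l) +
        Measure.pi μ (⋃ u ∈ Finset.range (Q + 2), ⋃ a, ⋃ b, V u a b) := measure_union_le _ _
    _ ≤ N * w + ((Q + 2) * 2 ^ G * D : ℕ) * w := by
        refine add_le_add ?_ hsum
        refine (measure_iUnion_fintype_le _ _).trans ?_
        refine (Finset.sum_le_sum fun l _ => hUm l).trans (le_of_eq ?_)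
        rw [Finset.sum_const, Finset.card_univ, Fintype.card_fin, nsmul_eq_mul]
    _ = ((N + (Q + 2) * 2 ^ G * D : ℕ) : ENNReal) * w := by
        push_cast
        ring
    _ ≤ ((2 ^ ext m n N s Q : ℕ) : ENNReal) * w := by gcongr
    _ = (2 ^ t)⁻¹ := by
        rw [hw, ht']
        push_cast
        exact two_pow_inv _ _

end

end Pool.Agent.V8H42.LP
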