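import Pool.Agent.R535.SM.Main

set_option autoImplicit false

/-!
# Windows for the values of a linear form on vectors with bounded determinants
-/

namespace Pool.Agent.V8H42.LP

open Pool.Agent.R535.SM

section

variable {m n : ℕ}

/-- A nonzero space has an elementary vector. -/
theorem exists_el (L : Submodule ℝ (Fin m → ℝ)) (h : L ≠ ⊥) : ∃ C, El L C := by
  classical
  have h1 : ∃ k : ℕ, ∃ C ∈ L, C ≠ 0 ∧ (Finset.univ.filter fun i => C i ≠ 0).card = k := by
    obtain ⟨C, hC, h0⟩ := (Submodule.ne_bot_iff _).1 h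
    exact ⟨_, C, hC, h0, rfl⟩
  obtain ⟨C, hC, h0, hk⟩ := Nat.find_spec h1
  refine ⟨C, hC, h0, fun D hD hs => ?_⟩
  obtain ⟨j, hj⟩ : ∃ j, C j ≠ 0 := by
    by_contra hne
    push Not at hne
    exact h0 (funext hne)
  refine ⟨D j / C j, ?_⟩
  by_contra hne
  obtain ⟨E, hE⟩ : ∃ E : Fin m → ℝ, E = D - (D j / C j) • C := ⟨_, rfl⟩
  have hEL : E ∈ L := by
    rw [hE]
    exact L.sub_mem hD (L.smul_mem _ hC)
  have hE0 : E ≠ 0 := by
    rw [hE]
    intro h
    exact hne (sub_eq_zero.1 h)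
  have hEj : E j = 0 := by
    rw [hE]
    simp only [Pi.sub_apply, Pi.smul_apply, smul_eq_mul]
    rw [div_mul_cancel₀ _ hj, sub_self]
  have hsub : (Finset.univ.filter fun i => E i ≠ 0) ⊂ Finset.univ.filter fun i => C i ≠ 0 := by
    rw [Finset.ssubset_iff_of_subset]
    · refine ⟨j, by simpa using hj, by simpa using hEj⟩
    · intro i hi
      rw [Finset.mem_filter] at hi ⊢
      refine ⟨hi.1, fun hCi => hi.2 ?_⟩
      rw [hE]
      simp [hCi, hs i hCi]
  have := Finset.card_lt_card hsub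
  rw [hk] at this
  exact Nat.find_min h1 this ⟨E, hEL, hE0, rfl⟩

/-- All nonzero minors are between `2 ^ (-R)` and `2 ^ R` in absolute value. -/
def Bdd {ι : Type} {q : ℕ} (R : ℕ) (V : ι → Fin q → ℝ) : Prop :=
  ∀ (u : ℕ), u ≤ q + 1 → ∀ (a : Fin u → ι) (e : Fin u → Fin q),
    (Matrix.of fun i j => V (a i) (e j)).det ≠ 0 →
    (2 ^ R : ℝ)⁻¹ ≤ |(Matrix.of fun i j => V (a i) (e j)).det| ∧
      |(Matrix.of fun i j => V (a i) (e j)).det| ≤ 2 ^ R

/-- Many values which are far apart are impossible. -/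
theorem spread_card {ι : Type} {q R : ℕ} {V : ι → Fin q → ℝ} (hV : Bdd R V) (w : Fin q → ℝ)
    {T : Finset ℝ} (hT : ∀ t ∈ T, 0 < t ∧ ∃ i, t = |∑ j, V i j * w j|)
    (hs : ∀ a ∈ T, ∀ b ∈ T, a < b → 2 ^ (2 * R + q) * a < b) : T.card ≤ q := by
  classical
  by_contra hcard
  push Not at hcard
  obtain ⟨T', hT', hc'⟩ := Finset.exists_subset_card_eq (Nat.succ_le_of_lt hcard)
  obtain ⟨e⟩ : Nonempty (Fin (q + 1) ≃ T') := ⟨(Finset.equivFinOfCardEq hc').symm⟩
  have hpos : ∀ i, (0 : ℝ) < (e i : T') := fun i => (hT _ (hT' (e i).2)).1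
  choose a ha using fun i => (hT _ (hT' (e i).2)).2
  obtain ⟨M, hM⟩ : ∃ M : Matrix (Fin (q + 1)) (Fin q) ℝ, M = Matrix.of fun i j => V (a i) j :=
    ⟨_, rfl⟩
  have hker : lk M ≠ ⊥ := by
    intro h0
    unfold lk at h0
    have h1 := LinearMap.ker_eq_bot.1 h0
    have h2 := LinearMap.finrank_le_finrank_of_injective h1
    simp only [Module.finrank_fintype_fun_eq_card, Fintype.card_fin] at h2
    omega
  obtain ⟨C, hC⟩ := exists_el _ hker
  have hC' : El (sup (fun _ => True) (lk M)) C := by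
    obtain ⟨c1, c2, c3⟩ := hC
    exact ⟨⟨c1, fun i hi => absurd trivial hi⟩, c2, fun D hD => c3 D hD.1⟩
  have hrat : ∀ i j, i ≠ j → C i ≠ 0 → C j ≠ 0 → |C i / C j| ≤ 2 ^ (2 * R) := by
    intro i j hij hi hj
    obtain ⟨k, hk, f, f', h, -, -, hd, hd'⟩ := cramer hC' hij hi hj
    have e1 : M.submatrix f h = Matrix.of fun i j => V ((a ∘ f) i) (h j) := by
      rw [hM]; rfl
    have e2 : M.submatrix f' h = Matrix.of fun i j => V ((a ∘ f') i) (h j) := by
      rw [hM]; rfl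
    have hne : (M.submatrix f' h).det ≠ 0 := by
      rw [hd']
      exact mul_ne_zero (neg_ne_zero.2 (div_ne_zero hi hj)) hd
    have a1 := hV k hk (a ∘ f) h (by rw [← e1]; exact hd)
    have a2 := hV k hk (a ∘ f') h (by rw [← e2]; exact hne)
    rw [← e1] at a1
    rw [← e2] at a2
    exact (ratio_bounds hd hd' a2.1 a2.2 a1.1 a1.2).2
  -- the relation
  have hrel : ∑ i, C i * (∑ j, V (a i) j * w j) = 0 := by
    have h1 := mem_lk.1 hC.1
    have h2 : ∀ i, C i * (∑ j, V (a i) j * w j) = ∑ j, (C i * M i j) * w j := by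
      intro i
      rw [Finset.mul_sum]
      refine Finset.sum_congr rfl fun j _ => ?_
      rw [hM, Matrix.of_apply]
      ring
    simp only [h2]
    rw [Finset.sum_comm]
    refine Finset.sum_eq_zero fun j _ => ?_
    rw [← Finset.sum_mul, h1 j, zero_mul]
  obtain ⟨U, hU⟩ : ∃ U : Finset (Fin (q + 1)), U = Finset.univ.filter fun i => C i ≠ 0 :=
    ⟨_, rfl⟩
  have hUne : U.Nonempty := by
    by_contra hne
    rw [Finset.not_nonempty_iff_eq_empty] at hne
    apply hC.2.1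
    funext i
    by_contra hi
    have : i ∈ U := by rw [hU, Finset.mem_filter]; exact ⟨Finset.mem_univ _, hi⟩
    rw [hne] at this
    exact absurd this (Finset.notMem_empty _)
  obtain ⟨i0, hi0, hmax⟩ := Finset.exists_max_image U (fun i => ((e i : T') : ℝ)) hUne
  have hci0 : C i0 ≠ 0 := by
    rw [hU, Finset.mem_filter] at hi0
    exact hi0.2
  have ht0 := hpos i0
  rw [← Finset.add_sum_erase _ _ (Finset.mem_univ i0)] at hrel
  have hterm : ∀ i ∈ Finset.univ.erase i0, |C i * (∑ j, V (a i) j * w j)| ≤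
      |C i0| * ((e i0 : T') : ℝ) / 2 ^ q := by
    intro i hi
    have hne := Finset.ne_of_mem_erase hi
    by_cases hci : C i = 0
    · rw [hci, zero_mul, abs_zero]
      positivity
    have hiU : i ∈ U := by rw [hU, Finset.mem_filter]; exact ⟨Finset.mem_univ _, hci⟩
    have hlt : ((e i : T') : ℝ) < (e i0 : T') := lt_of_le_of_ne (hmax i hiU) fun h =>
      hne (e.injective (Subtype.ext h))
    have h1 := hs _ (hT' (e i).2) _ (hT' (e i0).2) hlt
    have h2 := hrat i i0 hne hci hci0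
    rw [abs_mul, ← ha i]
    rw [abs_div, div_le_iff₀ (abs_pos.2 hci0)] at h2
    rw [le_div_iff₀ (by positivity)]
    calc |C i| * ((e i : T') : ℝ) * 2 ^ q
        ≤ (2 ^ (2 * R) * |C i0|) * ((e i : T') : ℝ) * 2 ^ q := by
          have := hpos i
          gcongr
      _ = |C i0| * (2 ^ (2 * R + q) * ((e i : T') : ℝ)) := by rw [pow_add]; ring
      _ ≤ |C i0| * ((e i0 : T') : ℝ) := by
          have := abs_nonneg (C i0)
          gcongr
  have hsum : |∑ i ∈ Finset.univ.erase i0, C i * (∑ j, V (a i) j * w j)| <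
      |C i0| * ((e i0 : T') : ℝ) := by
    refine lt_of_le_of_lt ((Finset.abs_sum_le_sum_abs _ _).trans (Finset.sum_le_sum hterm)) ?_
    rw [Finset.sum_const, nsmul_eq_mul, Finset.card_erase_of_mem (Finset.mem_univ _),
      Finset.card_univ, Fintype.card_fin, Nat.add_sub_cancel, mul_div_assoc',
      div_lt_iff₀ (by positivity)]
    have h4 : (q : ℝ) < 2 ^ q := by exact_mod_cast Nat.lt_two_pow_self
    have h5 : 0 < |C i0| * ((e i0 : T') : ℝ) := mul_pos (abs_pos.2 hci0) ht0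
    nlinarith
  have h6 : C i0 * (∑ j, V (a i0) j * w j) =
      -∑ i ∈ Finset.univ.erase i0, C i * (∑ j, V (a i) j * w j) := by linarith
  have h7 : |C i0| * ((e i0 : T') : ℝ) =
      |∑ i ∈ Finset.univ.erase i0, C i * (∑ j, V (a i) j * w j)| := by
    rw [ha i0, ← abs_mul, h6, abs_neg]
  linarith

/-- The windows of the values. -/
theorem windows {ι : Type} {q R : ℕ} {V : ι → Fin q → ℝ} (hV : Bdd R V) (w : Fin q → ℝ) :
    ∃ S : Finset ℝ, S.card ≤ q ∧ (∀ σ ∈ S, 0 < σ) ∧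
    ∀ i, ∑ j, V i j * w j ≠ 0 → ∃ σ ∈ S, σ ≤ |∑ j, V i j * w j| * 2 ^ (2 * R + q) ∧
      |∑ j, V i j * w j| ≤ 2 ^ (2 * R + q) * σ := by
  classical
  obtain ⟨L, hL⟩ : ∃ L, L = 2 * R + q := ⟨_, rfl⟩
  rw [← hL]
  obtain ⟨P, hP⟩ : ∃ P : ℕ → Prop, P = fun k => ∃ T : Finset ℝ, T.card = k ∧
    (∀ t ∈ T, 0 < t ∧ ∃ i, t = |∑ j, V i j * w j|) ∧
    ∀ a ∈ T, ∀ b ∈ T, a < b → 2 ^ L * a < b := ⟨_, rfl⟩
  have hP0 : P 0 := by
    rw [hP]
    exact ⟨∅, rfl, by simp, by simp⟩
  have hPN : ∀ k, P k → k ≤ q := by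
    intro k hk
    rw [hP] at hk
    obtain ⟨T, hk, h1, h2⟩ := hk
    rw [← hk]
    rw [hL] at h2
    exact spread_card hV w h1 h2
  have hspec : P (Nat.findGreatest P q) := Nat.findGreatest_spec (Nat.zero_le q) hP0
  have hfin : ∀ k, P k → k ≤ Nat.findGreatest P q := fun k hk => Nat.le_findGreatest (hPN k hk) hk
  obtain ⟨K, hK⟩ : ∃ K, K = Nat.findGreatest P q := ⟨_, rfl⟩
  rw [← hK] at hspec hfin
  have hKq := hPN K hspec
  clear hK
  rw [hP] at hspec hfin
  obtain ⟨T, hk, h1, h2⟩ := hspec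
  refine ⟨T, by rw [hk]; exact hKq, fun σ hσ => (h1 σ hσ).1, ?_⟩
  intro i hi
  obtain ⟨v, hv⟩ : ∃ v, v = |∑ j, V i j * w j| := ⟨_, rfl⟩
  have hv0 : 0 < v := by rw [hv]; exact abs_pos.2 hi
  rw [← hv]
  by_contra hcon
  push Not at hcon
  have hp1 : (1 : ℝ) ≤ 2 ^ L := one_le_pow₀ (by norm_num)
  have hvT : v ∉ T := by
    intro hvT
    have h4 := hcon v hvT (le_mul_of_one_le_right hv0.le hp1)
    have h5 : v ≤ 2 ^ L * v := le_mul_of_one_le_left hv0.le hp1
    linarith
  have h3 := hfin (T.card + 1) ⟨insert v T, Finset.card_insert_of_notMem hvT, ?_, ?_⟩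
  · omega
  · intro t ht
    rcases Finset.mem_insert.1 ht with rfl | ht
    · exact ⟨hv0, i, hv⟩
    · exact h1 t ht
  · intro a ha b hb hab
    rcases Finset.mem_insert.1 ha with rfl | ha'
    · rcases Finset.mem_insert.1 hb with rfl | hb'
      · exact absurd hab (lt_irrefl _)
      · by_contra hn
        push Not at hn
        have h6 := hcon b hb' (by rw [mul_comm]; exact hn)
        have hb0 : 0 < b := (h1 b hb').1
        have h5 : b ≤ 2 ^ L * b := le_mul_of_one_le_left hb0.le hp1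
        linarith
    · rcases Finset.mem_insert.1 hb with rfl | hb'
      · by_contra hn
        push Not at hn
        have h6 := hcon a ha' (hab.le.trans (le_mul_of_one_le_right hv0.le hp1))
        linarith
      · exact h2 a ha' b hb' hab

/-- The minors of `A` lie in the windows of `S` of width `2 ^ L`. -/
def InWin (S : Finset ℝ) (L : ℕ) (A : Matrix (Fin m) (Fin n) ℝ) : Prop :=
  ∀ (k : ℕ), k ≤ m → ∀ (f : Fin k → Fin m) (h : Fin k → Fin n), (A.submatrix f h).det ≠ 0 →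
    ∃ σ ∈ S, σ ≤ |(A.submatrix f h).det| * 2 ^ L ∧ |(A.submatrix f h).det| ≤ 2 ^ L * σ

/-- The ratios of the entries of elementary vectors are ratios of minors of `A`. -/
def RatM (A : Matrix (Fin m) (Fin n) ℝ) (L : Submodule ℝ (Fin m → ℝ)) : Prop :=
  ∀ C, El L C → ∀ i j, i ≠ j → C i ≠ 0 → C j ≠ 0 →
    ∃ k : ℕ, k ≤ m ∧ ∃ (f f' : Fin k → Fin m) (h : Fin k → Fin n), (A.submatrix f h).det ≠ 0 ∧
      (A.submatrix f' h).det = -(C i / C j) * (A.submatrix f h).det

/-- One exceptional row or column. -/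
theorem near_ratM {A B : Matrix (Fin m) (Fin n) ℝ} (h : Near A B) :
    ∃ L : Submodule ℝ (Fin m → ℝ), (Hp L (lk B) ∨ Hp (lk B) L) ∧ RatM A L := by
  classical
  rcases h with ⟨i₀, hi₀⟩ | ⟨j₀, hj₀⟩
  · refine ⟨sup (fun i => i ≠ i₀) (lk B), Or.inl ⟨fun C hC => hC.1, ?_⟩, ?_⟩
    · have h1 := finrank_cut (lk B) (LinearMap.proj i₀ : (Fin m → ℝ) →ₗ[ℝ] ℝ)
      have h2 : (lk B ⊓ LinearMap.ker (LinearMap.proj i₀ : (Fin m → ℝ) →ₗ[ℝ] ℝ)) =
          sup (fun i => i ≠ i₀) (lk B) := by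
        ext C
        rw [Submodule.mem_inf, LinearMap.mem_ker]
        constructor
        · rintro ⟨h3, h4⟩
          refine ⟨h3, fun i hi => ?_⟩
          rw [not_not] at hi
          rw [hi]
          exact h4
        · rintro ⟨h3, h4⟩
          exact ⟨h3, h4 i₀ (fun h => h rfl)⟩
      rw [h2] at h1
      exact h1
    · intro C hC i j hij hi hj
      obtain ⟨k, hk, f, f', h, hf, hf', hd, hd'⟩ := cramer hC hij hi hj
      have e1 : B.submatrix f h = A.submatrix f h := by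
        ext a b
        exact hi₀ _ _ (hf a)
      have e2 : B.submatrix f' h = A.submatrix f' h := by
        ext a b
        exact hi₀ _ _ (hf' a)
      rw [e1] at hd hd'
      rw [e2] at hd'
      exact ⟨k, hk, f, f', h, hd, hd'⟩
  · obtain ⟨A0, hA0⟩ : ∃ A0 : Matrix (Fin m) (Fin n) ℝ,
        A0 = fun i j => if j = j₀ then 0 else A i j := ⟨_, rfl⟩
    refine ⟨lk A0, Or.inr ⟨?_, ?_⟩, ?_⟩
    · intro C hC
      rw [mem_lk] at hC ⊢
      intro j
      by_cases hj : j = j₀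
      · refine Finset.sum_eq_zero fun i _ => ?_
        rw [hA0]
        simp [hj]
      · rw [← hC j]
        refine Finset.sum_congr rfl fun i _ => ?_
        rw [hA0, hj₀ i j hj]
        simp [hj]
    · have h1 := finrank_cut (lk A0)
        ((LinearMap.proj j₀ : (Fin n → ℝ) →ₗ[ℝ] ℝ).comp (Matrix.vecMulLinear B))
      have h2 : (lk A0 ⊓ LinearMap.ker
          ((LinearMap.proj j₀ : (Fin n → ℝ) →ₗ[ℝ] ℝ).comp (Matrix.vecMulLinear B))) = lk B := by
        ext C
        rw [Submodule.mem_inf, LinearMap.mem_ker, mem_lk, mem_lk]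
        constructor
        · rintro ⟨h3, h4⟩ j
          by_cases hj : j = j₀
          · rw [hj]
            exact h4
          · rw [← h3 j]
            refine Finset.sum_congr rfl fun i _ => ?_
            rw [hA0, hj₀ i j hj]
            simp [hj]
        · intro h3
          refine ⟨fun j => ?_, h3 j₀⟩
          by_cases hj : j = j₀
          · refine Finset.sum_eq_zero fun i _ => ?_
            rw [hA0]
            simp [hj]
          · rw [← h3 j]
            refine Finset.sum_congr rfl fun i _ => ?_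
            rw [hA0, hj₀ i j hj]
            simp [hj]
      rw [h2] at h1
      exact h1
    · intro C hC i j hij hi hj
      have hC' : El (sup (fun _ => True) (lk A0)) C := by
        obtain ⟨c1, c2, c3⟩ := hC
        exact ⟨⟨c1, fun i hi => absurd trivial hi⟩, c2, fun D hD => c3 D hD.1⟩
      obtain ⟨k, hk, f, f', h, -, -, hd, hd'⟩ := cramer hC' hij hi hj
      have hcol : ∀ b, h b ≠ j₀ := by
        intro b hb
        apply hd
        refine Matrix.det_eq_zero_of_column_eq_zero b fun a => ?_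
        rw [Matrix.submatrix_apply, hA0]
        simp [hb]
      have e1 : A0.submatrix f h = A.submatrix f h := by
        ext a b
        rw [Matrix.submatrix_apply, Matrix.submatrix_apply, hA0]
        simp [hcol b]
      have e2 : A0.submatrix f' h = A.submatrix f' h := by
        ext a b
        rw [Matrix.submatrix_apply, Matrix.submatrix_apply, hA0]
        simp [hcol b]
      rw [e1] at hd hd'
      rw [e2] at hd'
      exact ⟨k, hk, f, f', h, hd, hd'⟩

theorem few_of_ratM {S : Finset ℝ} (hS : ∀ σ ∈ S, 0 < σ) {L q r : ℕ} (hq : S.card ≤ q)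
    (hr : q * q + 4 * L + 1 ≤ r) {A : Matrix (Fin m) (Fin n) ℝ} (hA : InWin S L A)
    {K : Submodule ℝ (Fin m → ℝ)} (hK : RatM A K)
    {ρ : Fin m → ℝ} (hρ : ∀ i, ρ i ≠ 0) : Few r (K.map (sc ρ hρ).toLinearMap) := by
  classical
  have key : ∀ i j : Fin m, ∃ T : Finset ℝ, (T.card ≤ r ∧ ∀ s ∈ T, 0 < s) ∧
      ∀ D, El (K.map (sc ρ hρ).toLinearMap) D → D i ≠ 0 → D j ≠ 0 →
        ∃ s ∈ T, s ≤ |D i / D j| ∧ |D i / D j| ≤ 2 ^ r * s := by
    intro i j
    by_cases hij : i = j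
    · subst hij
      refine ⟨{1}, ⟨by rw [Finset.card_singleton]; omega, by simp⟩, ?_⟩
      intro D hD hi _
      refine ⟨1, Finset.mem_singleton_self _, ?_, ?_⟩
      · rw [div_self hi, abs_one]
      · rw [div_self hi, abs_one, mul_one]
        exact one_le_pow₀ (by norm_num)
    obtain ⟨κ, hκ⟩ : ∃ κ : ℝ, κ = |ρ i / ρ j| := ⟨_, rfl⟩
    have hκ0 : 0 < κ := by rw [hκ]; exact abs_pos.2 (div_ne_zero (hρ i) (hρ j))
    refine ⟨(S ×ˢ S).image fun p => κ * (p.1 / p.2 / 2 ^ (2 * L)), ⟨?_, ?_⟩, ?_⟩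
    · refine Finset.card_image_le.trans ?_
      rw [Finset.card_product]
      have := Nat.mul_le_mul hq hq
      omega
    · intro x hx
      obtain ⟨p, hp, rfl⟩ := Finset.mem_image.1 hx
      rw [Finset.mem_product] at hp
      have h1 := hS _ hp.1
      have h2 := hS _ hp.2
      positivity
    · intro D hD hi hj
      obtain ⟨k, hk, f, f', h, hd1, hd2⟩ := hK _ (el_map hρ hD) i j hij
        (div_ne_zero hi (hρ i)) (div_ne_zero hj (hρ j))
      obtain ⟨d, hd⟩ : ∃ d, d = (A.submatrix f h).det := ⟨_, rfl⟩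
      obtain ⟨d', hd'⟩ : ∃ d', d' = (A.submatrix f' h).det := ⟨_, rfl⟩
      have hratio0 : D i / ρ i / (D j / ρ j) ≠ 0 :=
        div_ne_zero (div_ne_zero hi (hρ i)) (div_ne_zero hj (hρ j))
      have hd0 : (A.submatrix f' h).det ≠ 0 := by
        rw [hd2]
        exact mul_ne_zero (neg_ne_zero.2 hratio0) hd1
      obtain ⟨σ, hσ, hσ1, hσ2⟩ := hA k hk f h hd1
      obtain ⟨σ', hσ', hσ1', hσ2'⟩ := hA k hk f' h hd0
      rw [← hd] at hd1 hσ1 hσ2 hd2
      rw [← hd'] at hd0 hσ1' hσ2' hd2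
      have hab : |d'| = |D i / ρ i / (D j / ρ j)| * |d| := by
        rw [hd2, abs_mul, abs_neg]
      have hratio : |D i / D j| = κ * (|d'| / |d|) := by
        rw [hab, mul_div_assoc, div_self (abs_ne_zero.2 hd1), mul_one, hκ, ← abs_mul]
        congr 1
        have := hρ i
        have := hρ j
        field_simp
      have hσp := hS σ hσ
      have hσp' := hS σ' hσ'
      have hdp : 0 < |d| := abs_pos.2 hd1
      have hdp' : 0 < |d'| := abs_pos.2 hd0
      have h2L : (2 : ℝ) ^ (2 * L) = 2 ^ L * 2 ^ L := by rw [two_mul, pow_add]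
      have hLp : (0 : ℝ) < 2 ^ L := by positivity
      refine ⟨κ * (σ' / σ / 2 ^ (2 * L)), ?_, ?_, ?_⟩
      · exact Finset.mem_image.2 ⟨(σ', σ), Finset.mem_product.2 ⟨hσ', hσ⟩, rfl⟩
      · rw [hratio]
        refine mul_le_mul_of_nonneg_left ?_ hκ0.le
        rw [div_div, div_le_div_iff₀ (by positivity) hdp, h2L]
        calc σ' * |d| ≤ (|d'| * 2 ^ L) * (2 ^ L * σ) :=
              mul_le_mul hσ1' hσ2 hdp.le (by positivity)
          _ = |d'| * (σ * (2 ^ L * 2 ^ L)) := by ring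
      · rw [hratio]
        have h4 : (2 : ℝ) ^ (4 * L) ≤ 2 ^ r := pow_le_pow_right₀ (by norm_num) (by omega)
        have h5 : 2 ^ (4 * L) * (κ * (σ' / σ / 2 ^ (2 * L))) = κ * (2 ^ (2 * L) * (σ' / σ)) := by
          have h6 : (2 : ℝ) ^ (4 * L) = 2 ^ (2 * L) * 2 ^ (2 * L) := by
            rw [← pow_add]
            congr 1
            ring
          rw [h6]
          field_simp
        have h7 : |d'| / |d| ≤ 2 ^ (2 * L) * (σ' / σ) := by
          rw [mul_div_assoc', div_le_div_iff₀ hdp hσp, h2L]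
          calc |d'| * σ ≤ (2 ^ L * σ') * (|d| * 2 ^ L) :=
                mul_le_mul hσ2' hσ1 hσp.le (by positivity)
            _ = 2 ^ L * 2 ^ L * σ' * |d| := by ring
        calc κ * (|d'| / |d|) ≤ κ * (2 ^ (2 * L) * (σ' / σ)) :=
              mul_le_mul_of_nonneg_left h7 hκ0.le
          _ = 2 ^ (4 * L) * (κ * (σ' / σ / 2 ^ (2 * L))) := h5.symm
          _ ≤ 2 ^ r * (κ * (σ' / σ / 2 ^ (2 * L))) :=
              mul_le_mul_of_nonneg_right h4 (by positivity)
  choose T hT1 hT2 using key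
  exact ⟨T, fun i j => hT1 i j, fun D hD i j hi hj => hT2 i j D hD hi hj⟩

/-- Matrices whose minors lie in few windows: the hypothesis of the algorithm. -/
theorem reach_few {S : Finset ℝ} (hS : ∀ σ ∈ S, 0 < σ) {L q r : ℕ} (hq : S.card ≤ q)
    (hr : q * q + 4 * L + 1 ≤ r) {A B' : Matrix (Fin m) (Fin n) ℝ}
    (hA : InWin S L A) (h : Reach A B') :
    ∃ K : Submodule ℝ (Fin m → ℝ), (Hp K (lk B') ∨ Hp (lk B') K) ∧ Few r K := by
  obtain ⟨ρ, B, G, hρ, hG, hN, hB⟩ := h
  obtain ⟨K, h1, h2⟩ := near_ratM hN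
  refine ⟨K.map (sc ρ hρ).toLinearMap, ?_, few_of_ratM hS hq hr hA h2 hρ⟩
  rw [lk_map hρ hG hB]
  exact h1.imp (hp_map _) (hp_map _)

end

end Pool.Agent.V8H42.LP
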